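import Mathlib
import Pool.Agent.Helper114.Chart

/-! Holomorphic self-maps of the sphere, linear maps acting on the sphere. -/

set_option autoImplicit false

open Set Filter Topology Metric
open scoped OnePoint
open Pool.Agent.Helper114.Herman

namespace Pool.Agent.Y334.RM

/-- the Riemann sphere -/
abbrev Sp := OnePoint ℂ

/-- holomorphic self-maps of the sphere -/
def HolMap (F : Sp → Sp) : Prop := ∀ (φ : ℂ → Sp) (z : ℂ), HolAt φ z → HolAt (fun w => F (φ w)) z

theorem HolMap.continuous {F : Sp → Sp} (h : HolMap F) : Continuous F := by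
  rw [continuous_iff_continuousAt]
  intro x
  obtain ⟨b, z, rfl⟩ := exists_kap x
  have h1 := (h (kap b) z (holAt_kap b z)).continuousAt
  rw [ContinuousAt, nhds_kap, tendsto_map'_iff]
  exact h1

theorem HolMap.comp {F G : Sp → Sp} (hF : HolMap F) (hG : HolMap G) : HolMap fun x => F (G x) :=
  fun φ z h => hF _ z (hG φ z h)

theorem HolMap.id : HolMap fun x => x := fun _ _ h => h

theorem HolMap.iterate {F : Sp → Sp} (hF : HolMap F) (n : ℕ) : HolMap F^[n] := by
  induction n with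
  | zero => exact HolMap.id
  | succ n ih =>
    rw [Function.iterate_succ']
    exact hF.comp ih

theorem pr_smul {t u v : ℂ} (ht : t ≠ 0) : pr (t * u) (t * v) = pr u v := by
  by_cases hv : v = 0
  · rw [hv, mul_zero, pr_zero, pr_zero]
  · rw [pr_ne hv, pr_ne (mul_ne_zero ht hv), mul_div_mul_left _ _ ht]

/-- two by two matrices -/
@[ext] structure Mx where
  a : ℂ
  b : ℂ
  c : ℂ
  e : ℂ

/-- the determinant -/
def Mx.det (M : Mx) : ℂ := M.a * M.e - M.b * M.c

/-- the product -/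
def Mx.mul (M N : Mx) : Mx :=
  ⟨M.a * N.a + M.b * N.c, M.a * N.b + M.b * N.e, M.c * N.a + M.e * N.c, M.c * N.b + M.e * N.e⟩

theorem Mx.det_mul (M N : Mx) : (M.mul N).det = M.det * N.det := by
  simp only [Mx.det, Mx.mul]
  ring

/-- the action on the sphere -/
noncomputable def Mx.act (M : Mx) (x : Sp) : Sp :=
  match x with
  | none => pr M.a M.c
  | some z => pr (M.a * z + M.b) (M.c * z + M.e)

theorem Mx.act_infty (M : Mx) : M.act ∞ = pr M.a M.c := rfl

theorem Mx.act_coe (M : Mx) (z : ℂ) : M.act (z : Sp) = pr (M.a * z + M.b) (M.c * z + M.e) := rfl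

theorem Mx.act_pr (M : Mx) {u v : ℂ} (h : u ≠ 0 ∨ v ≠ 0) :
    M.act (pr u v) = pr (M.a * u + M.b * v) (M.c * u + M.e * v) := by
  by_cases hv : v = 0
  · have hu : u ≠ 0 := by simpa [hv] using h
    rw [hv, pr_zero, Mx.act_infty, mul_zero, mul_zero, add_zero, add_zero, mul_comm M.a,
      mul_comm M.c, pr_smul hu]
  · rw [pr_ne hv, Mx.act_coe, ← pr_smul hv]
    congr 1 <;> field_simp

theorem Mx.vec_ne {M : Mx} (hM : M.det ≠ 0) {u v : ℂ} (h : u ≠ 0 ∨ v ≠ 0) :
    M.a * u + M.b * v ≠ 0 ∨ M.c * u + M.e * v ≠ 0 := by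
  by_contra hcon
  push Not at hcon
  obtain ⟨h1, h2⟩ := hcon
  have h3 : M.det * u = 0 := by
    simp only [Mx.det]
    linear_combination M.e * h1 - M.b * h2
  have h4 : M.det * v = 0 := by
    simp only [Mx.det]
    linear_combination M.a * h2 - M.c * h1
  rcases h with h | h
  · exact (mul_ne_zero hM h) h3
  · exact (mul_ne_zero hM h) h4

theorem Mx.act_mul (M : Mx) {N : Mx} (hN : N.det ≠ 0) (x : Sp) :
    (M.mul N).act x = M.act (N.act x) := by
  obtain ⟨u, v, h, rfl⟩ := exists_pr x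
  rw [Mx.act_pr _ h, Mx.act_pr N h, Mx.act_pr M (Mx.vec_ne hN h)]
  simp only [Mx.mul]
  congr 1 <;> ring

theorem Mx.hol {M : Mx} (hM : M.det ≠ 0) : HolMap M.act := by
  intro φ z h
  obtain ⟨u, v, hu, hv, h0, h⟩ := holAt_iff_pr.1 h
  refine holAt_iff_pr.2 ⟨fun w => M.a * u w + M.b * v w, fun w => M.c * u w + M.e * v w, ?_, ?_,
    Mx.vec_ne hM h0, ?_⟩
  · exact (analyticAt_const.mul hu).add (analyticAt_const.mul hv)
  · exact (analyticAt_const.mul hu).add (analyticAt_const.mul hv)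
  · have h1 : ∀ᶠ w in 𝓝 z, u w ≠ 0 ∨ v w ≠ 0 := by
      rcases h0 with h0 | h0
      · filter_upwards [hu.continuousAt.eventually_ne h0] with w hw using Or.inl hw
      · filter_upwards [hv.continuousAt.eventually_ne h0] with w hw using Or.inr hw
    filter_upwards [h, h1] with w hw hw'
    rw [hw, Mx.act_pr _ hw']

/-- the identity matrix -/
def Mx.one : Mx := ⟨1, 0, 0, 1⟩

theorem Mx.act_one (x : Sp) : Mx.one.act x = x := by
  obtain ⟨u, v, h, rfl⟩ := exists_pr x
  rw [Mx.act_pr _ h]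
  simp [Mx.one]

/-- closeness to the identity -/
def Mx.near (δ : ℝ) (M : Mx) : Prop := ‖M.a - 1‖ < δ ∧ ‖M.b‖ < δ ∧ ‖M.c‖ < δ ∧ ‖M.e - 1‖ < δ

theorem Mx.near.mono {δ δ' : ℝ} (h : δ ≤ δ') {M : Mx} (hM : M.near δ) : M.near δ' :=
  ⟨hM.1.trans_le h, hM.2.1.trans_le h, hM.2.2.1.trans_le h, hM.2.2.2.trans_le h⟩

theorem Mx.near.det_ne {δ : ℝ} (hδ : δ ≤ 1 / 4) {M : Mx} (hM : M.near δ) : M.det ≠ 0 := by
  obtain ⟨h1, h2, h3, h4⟩ := hM
  intro h0
  have h5 : (1 : ℂ) = -((M.a - 1) * (M.e - 1)) - (M.a - 1) - (M.e - 1) + M.b * M.c := by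
    have : M.a * M.e - M.b * M.c = 0 := h0
    linear_combination this
  have h6 : (1 : ℝ) ≤ ‖M.a - 1‖ * ‖M.e - 1‖ + ‖M.a - 1‖ + ‖M.e - 1‖ + ‖M.b‖ * ‖M.c‖ := by
    calc (1 : ℝ) = ‖(1 : ℂ)‖ := by simp
      _ = ‖-((M.a - 1) * (M.e - 1)) - (M.a - 1) - (M.e - 1) + M.b * M.c‖ := by rw [← h5]
      _ ≤ ‖-((M.a - 1) * (M.e - 1)) - (M.a - 1) - (M.e - 1)‖ + ‖M.b * M.c‖ := norm_add_le _ _
      _ ≤ ‖-((M.a - 1) * (M.e - 1)) - (M.a - 1)‖ + ‖M.e - 1‖ + ‖M.b * M.c‖ := by
          gcongr; exact norm_sub_le _ _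
      _ ≤ ‖-((M.a - 1) * (M.e - 1))‖ + ‖M.a - 1‖ + ‖M.e - 1‖ + ‖M.b * M.c‖ := by
          gcongr; exact norm_sub_le _ _
      _ = _ := by rw [norm_neg, norm_mul, norm_mul]
  have p1 := norm_nonneg (M.a - 1)
  have p2 := norm_nonneg (M.e - 1)
  have p3 := norm_nonneg M.b
  have p4 := norm_nonneg M.c
  nlinarith [mul_le_mul h1.le h4.le p2 (p1.trans h1.le), mul_le_mul h2.le h3.le p4 (p3.trans h2.le)]

theorem Mx.near_one {δ : ℝ} (hδ : 0 < δ) : Mx.one.near δ := by
  simp [Mx.near, Mx.one, hδ]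

/-- the unipotent matrices, upper or lower -/
def un (b : Bool) (β : ℂ) : Mx := if b then ⟨1, 0, β, 1⟩ else ⟨1, β, 0, 1⟩

theorem un_det (b : Bool) (β : ℂ) : (un b β).det = 1 := by
  cases b <;> simp [un, Mx.det]

theorem un_near {δ : ℝ} (b : Bool) {β : ℂ} (h : ‖β‖ < δ) : (un b β).near δ := by
  have h0 : 0 < δ := (norm_nonneg β).trans_lt h
  cases b <;> simp [un, Mx.near, h0, h]

theorem un_act (b : Bool) (β z : ℂ) : (un b β).act (kap b z) = kap b (z + β) := by
  cases b with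
  | false =>
    rw [kap_false, kap_false, ← pr_one z, Mx.act_pr _ (Or.inr one_ne_zero), ← pr_one]
    simp [un]
  | true =>
    rw [kap_true, kap_true, ← pr_one z, ← pr_one (z + β), sinv_pr (Or.inr one_ne_zero),
      sinv_pr (Or.inr one_ne_zero), Mx.act_pr _ (Or.inl one_ne_zero)]
    simp [un]
    ring_nf

theorem kap_ball {b : Bool} {z : ℂ} {r : ℝ} (hr : 0 < r) : kap b '' ball z r ∈ 𝓝 (kap b z) := by
  rw [nhds_kap]
  exact image_mem_map (ball_mem_nhds z hr)

/-- small changes of a matrix by unipotent ones -/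
theorem near_un_mul {δ : ℝ} {M : Mx} (hM : M.near δ) : ∃ r : ℝ, 0 < r ∧ ∀ (b : Bool) (β : ℂ),
    ‖β‖ < r → ((un b β).mul M).near δ := by
  obtain ⟨h1, h2, h3, h4⟩ := hM
  set K : ℝ := ‖M.a‖ + ‖M.b‖ + ‖M.c‖ + ‖M.e‖ + 1 with hK
  have p1 := norm_nonneg M.a
  have p2 := norm_nonneg M.b
  have p3 := norm_nonneg M.c
  have p4 := norm_nonneg M.e
  have hK0 : 0 < K := by rw [hK]; positivity
  set m : ℝ := min (min (δ - ‖M.a - 1‖) (δ - ‖M.b‖)) (min (δ - ‖M.c‖) (δ - ‖M.e - 1‖)) with hm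
  have hm0 : 0 < m := by
    rw [hm]
    refine lt_min (lt_min ?_ ?_) (lt_min ?_ ?_) <;> linarith
  have m1 : m ≤ δ - ‖M.a - 1‖ := (min_le_left _ _).trans (min_le_left _ _)
  have m2 : m ≤ δ - ‖M.b‖ := (min_le_left _ _).trans (min_le_right _ _)
  have m3 : m ≤ δ - ‖M.c‖ := (min_le_right _ _).trans (min_le_left _ _)
  have m4 : m ≤ δ - ‖M.e - 1‖ := (min_le_right _ _).trans (min_le_right _ _)
  refine ⟨m / K, by positivity, fun b β hβ => ?_⟩
  have key : ∀ x : ℂ, ‖x‖ ≤ K → ‖β * x‖ < m := by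
    intro x hx
    rw [norm_mul]
    calc ‖β‖ * ‖x‖ ≤ ‖β‖ * K := by gcongr
      _ < m / K * K := by gcongr
      _ = m := by field_simp
  have ka := key M.a (by linarith)
  have kb := key M.b (by linarith)
  have kc := key M.c (by linarith)
  have ke := key M.e (by linarith)
  cases b with
  | false =>
    refine ⟨?_, ?_, ?_, ?_⟩
    · show ‖1 * M.a + β * M.c - 1‖ < δ
      have e1 : 1 * M.a + β * M.c - 1 = (M.a - 1) + β * M.c := by ring
      rw [e1]
      exact (norm_add_le _ _).trans_lt (by linarith)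
    · show ‖1 * M.b + β * M.e‖ < δ
      rw [one_mul]
      exact (norm_add_le _ _).trans_lt (by linarith)
    · show ‖0 * M.a + 1 * M.c‖ < δ
      rw [zero_mul, one_mul, zero_add]
      exact h3
    · show ‖0 * M.b + 1 * M.e - 1‖ < δ
      rw [zero_mul, one_mul, zero_add]
      exact h4
  | true =>
    refine ⟨?_, ?_, ?_, ?_⟩
    · show ‖1 * M.a + 0 * M.c - 1‖ < δ
      rw [zero_mul, one_mul, add_zero]
      exact h1
    · show ‖1 * M.b + 0 * M.e‖ < δ
      rw [zero_mul, one_mul, add_zero]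
      exact h2
    · show ‖β * M.a + 1 * M.c‖ < δ
      rw [one_mul]
      exact (norm_add_le _ _).trans_lt (by linarith)
    · show ‖β * M.b + 1 * M.e - 1‖ < δ
      have e1 : β * M.b + 1 * M.e - 1 = β * M.b + (M.e - 1) := by ring
      rw [e1]
      exact (norm_add_le _ _).trans_lt (by linarith)

/-- The orbit of a point under the matrices near the identity is open. -/
theorem orbit_nhds {δ : ℝ} (hδ : δ ≤ 1 / 4) {M : Mx} (hM : M.near δ) (q : Sp) :
    {y | ∃ M' : Mx, M'.near δ ∧ M'.act q = y} ∈ 𝓝 (M.act q) := by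
  obtain ⟨r, hr, h⟩ := near_un_mul hM
  obtain ⟨b, z, hz⟩ := exists_kap (M.act q)
  rw [hz]
  filter_upwards [kap_ball (b := b) (z := z) hr] with y hy
  obtain ⟨z', hz', rfl⟩ := hy
  rw [mem_ball, dist_eq_norm] at hz'
  refine ⟨(un b (z' - z)).mul M, h b _ hz', ?_⟩
  rw [Mx.act_mul _ (hM.det_ne hδ), hz, un_act, add_sub_cancel]

/-- the translations -/
noncomputable def tau (β : ℂ) (x : Sp) : Sp := (un false β).act x

theorem tau_infty (β : ℂ) : tau β ∞ = ∞ := by
  rw [tau, Mx.act_infty]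
  simp [un, pr_zero]

theorem tau_coe (β z : ℂ) : tau β (z : Sp) = ((z + β : ℂ) : Sp) := by
  rw [tau, Mx.act_coe]
  simp [un, pr_one]

theorem tau_tau (β γ : ℂ) (x : Sp) : tau β (tau γ x) = tau (γ + β) x := by
  induction x using OnePoint.rec with
  | infty => rw [tau_infty, tau_infty, tau_infty]
  | coe z => rw [tau_coe, tau_coe, tau_coe, add_assoc]

theorem tau_zero (x : Sp) : tau 0 x = x := by
  induction x using OnePoint.rec with
  | infty => rw [tau_infty]
  | coe z => rw [tau_coe, add_zero]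

theorem tau_hol (β : ℂ) : HolMap (tau β) := Mx.hol (by rw [un_det]; exact one_ne_zero)

theorem tau_inj (β : ℂ) : Function.Injective (tau β) := by
  intro x y h
  have h1 := congrArg (tau (-β)) h
  rwa [tau_tau, tau_tau, add_neg_cancel, tau_zero, tau_zero] at h1

/-- A Möbius transformation of a given point to infinity, with the translations seen in the old
coordinate. -/
theorem exists_conj (x₀ : Sp) : ∃ H : Sp ≃ₜ Sp, H x₀ = ∞ ∧ HolMap H ∧ HolMap H.symm ∧
    ∀ δ : ℝ, 0 < δ → ∃ η : ℝ, 0 < η ∧ ∀ β : ℂ, ‖β‖ < η → ∃ M : Mx, M.near δ ∧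
      ∀ x, H.symm (tau β (H x)) = M.act x := by
  induction x₀ using OnePoint.rec with
  | infty =>
    refine ⟨Homeomorph.refl _, rfl, HolMap.id, HolMap.id, fun δ hδ => ⟨δ, hδ, fun β hβ => ?_⟩⟩
    exact ⟨un false β, un_near false hβ, fun x => rfl⟩
  | coe a =>
    set P : Mx := ⟨0, 1, 1, -a⟩ with hP
    set Q : Mx := ⟨a, 1, 1, 0⟩ with hQ
    have hPd : P.det ≠ 0 := by simp [Mx.det, hP]
    have hQd : Q.det ≠ 0 := by simp [Mx.det, hQ]
    have h1 : ∀ x, Q.act (P.act x) = x := by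
      intro x
      rw [← Mx.act_mul _ hPd]
      have : Q.mul P = Mx.one := by
        simp [Mx.mul, hP, hQ, Mx.one]
      rw [this, Mx.act_one]
    have h2 : ∀ x, P.act (Q.act x) = x := by
      intro x
      rw [← Mx.act_mul _ hQd]
      have : P.mul Q = Mx.one := by
        simp [Mx.mul, hP, hQ, Mx.one]
      rw [this, Mx.act_one]
    let H : Sp ≃ₜ Sp :=
      { toFun := P.act
        invFun := Q.act
        left_inv := h1
        right_inv := h2
        continuous_toFun := (Mx.hol hPd).continuous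
        continuous_invFun := (Mx.hol hQd).continuous }
    refine ⟨H, ?_, Mx.hol hPd, Mx.hol hQd, fun δ hδ => ?_⟩
    · show P.act (a : Sp) = ∞
      rw [Mx.act_coe]
      simp [hP, pr_zero]
    · have hK : 0 < ‖a‖ ^ 2 + ‖a‖ + 1 := by positivity
      refine ⟨δ / (‖a‖ ^ 2 + ‖a‖ + 1), by positivity, fun β hβ => ?_⟩
      have hβ' : ‖β‖ * (‖a‖ ^ 2 + ‖a‖ + 1) < δ := by
        rwa [lt_div_iff₀ hK] at hβ
      have q1 := norm_nonneg β
      have q2 := norm_nonneg a
      have q3 : 0 ≤ ‖β‖ * ‖a‖ := by positivity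
      have q4 : 0 ≤ ‖β‖ * ‖a‖ ^ 2 := by positivity
      refine ⟨⟨1 + β * a, -(β * a ^ 2), β, 1 - β * a⟩, ⟨?_, ?_, ?_, ?_⟩, fun x => ?_⟩
      · show ‖1 + β * a - 1‖ < δ
        rw [add_sub_cancel_left, norm_mul]
        nlinarith
      · show ‖-(β * a ^ 2)‖ < δ
        rw [norm_neg, norm_mul, norm_pow]
        nlinarith
      · show ‖β‖ < δ
        nlinarith
      · show ‖1 - β * a - 1‖ < δ
        have : 1 - β * a - 1 = -(β * a) := by ring
        rw [this, norm_neg, norm_mul]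
        nlinarith
      · show Q.act ((un false β).act (P.act x)) = _
        rw [← Mx.act_mul _ hPd, ← Mx.act_mul]
        · congr 1
          simp only [Mx.mul, hP, hQ, un]
          ext
          all_goals
            simp
            try ring
        · rw [Mx.det_mul, un_det, one_mul]
          exact hPd

end Pool.Agent.Y334.RM
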