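import Mathlib

/-! A bounded open set which is mapped into itself with a margin: all points are attracted by
attracting cycles. -/

set_option autoImplicit false

open Filter Topology Metric Set

namespace Pool.Agent.Y334.RM

theorem iter_mem {f : ℂ → ℂ} {O : Set ℂ} (hm : ∀ z ∈ O, f z ∈ O) (k : ℕ) {z : ℂ} (hz : z ∈ O) :
    f^[k] z ∈ O := by
  induction k with
  | zero => exact hz
  | succ k ih => rw [Function.iterate_succ_apply']; exact hm _ ih

theorem iter_diff {f : ℂ → ℂ} {O : Set ℂ} (hf : DifferentiableOn ℂ f O) (hm : ∀ z ∈ O, f z ∈ O)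
    (k : ℕ) : DifferentiableOn ℂ f^[k] O := by
  induction k with
  | zero => exact differentiableOn_id
  | succ k ih =>
    rw [Function.iterate_succ']
    exact hf.comp ih (fun z hz => iter_mem hm k hz)

theorem deriv_iter {f : ℂ → ℂ} {O : Set ℂ} (hO : IsOpen O) (hf : DifferentiableOn ℂ f O)
    (hm : ∀ z ∈ O, f z ∈ O) (k : ℕ) {y : ℂ} (hy : y ∈ O) :
    deriv f^[k + 1] y = deriv f (f^[k] y) * deriv f^[k] y := by
  rw [Function.iterate_succ']
  exact deriv_comp y (hf.differentiableAt (hO.mem_nhds (iter_mem hm k hy)))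
    ((iter_diff hf hm k).differentiableAt (hO.mem_nhds hy))

/-- Contraction of the Caratheodory metric. -/
theorem carath_on {f : ℂ → ℂ} {O : Set ℂ} (hO : IsOpen O) (hf : DifferentiableOn ℂ f O) {R η : ℝ}
    (hR : 0 ≤ R) (hη : 0 < η) (hB : ∀ z ∈ O, ‖f z‖ ≤ R) (hm : ∀ z ∈ O, ball (f z) η ⊆ O)
    {y : ℂ} {r : ℝ} (hr : 0 < r) (hy : closedBall y r ⊆ O) (k : ℕ) :
    ∀ G : ℂ → ℂ, DifferentiableOn ℂ G O → (∀ z ∈ O, ‖G z‖ ≤ 1) →
      ‖deriv G (f^[k] y)‖ * ‖deriv f^[k] y‖ * (1 + η / (4 * (R + 1))) ^ k ≤ 1 / r := by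
  have hyO : y ∈ O := hy (mem_closedBall_self hr.le)
  have hmaps : ∀ z ∈ O, f z ∈ O := fun z hz => hm z hz (mem_ball_self hη)
  induction k with
  | zero =>
    intro G hG hG1
    have h1 : ‖deriv G y‖ ≤ 1 / r := by
      apply Complex.norm_deriv_le_of_forall_mem_sphere_norm_le hr
      · apply DifferentiableOn.diffContOnCl
        rw [closure_ball y hr.ne']
        exact hG.mono hy
      · intro z hz
        exact hG1 z (hy (sphere_subset_closedBall hz))
    simpa using h1
  | succ k ih =>
    intro G hG hG1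
    set δ : ℝ := η / (4 * (R + 1)) with hδ
    have hδ0 : 0 < δ := by positivity
    set w : ℂ := f^[k] y with hw
    have hwO : w ∈ O := iter_mem hmaps k hyO
    have hfw : DifferentiableAt ℂ f w := hf.differentiableAt (hO.mem_nhds hwO)
    set g : ℂ → ℂ := fun u => f u + (δ : ℂ) * (f u - f w) with hg
    have hgO : ∀ u ∈ O, g u ∈ O := by
      intro u hu
      apply hm u hu
      rw [mem_ball, dist_eq_norm]
      have h1 : g u - f u = (δ : ℂ) * (f u - f w) := by simp [hg]
      rw [h1, norm_mul, Complex.norm_real, Real.norm_eq_abs, abs_of_pos hδ0]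
      have h2 : ‖f u - f w‖ ≤ 2 * R := by
        have := norm_sub_le (f u) (f w)
        have h3 := hB u hu
        have h4 := hB w hwO
        linarith
      calc δ * ‖f u - f w‖ ≤ δ * (2 * R) := by gcongr
        _ < δ * (4 * (R + 1)) := by
          apply mul_lt_mul_of_pos_left _ hδ0
          linarith
        _ = η := by rw [hδ]; field_simp
    have hgd : DifferentiableOn ℂ g O := by
      intro u hu
      exact (hf u hu).add (((hf u hu).sub (differentiableWithinAt_const _)).const_mul _)
    have hgw : g w = f w := by simp [hg]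
    have hgw' : deriv g w = (1 + (δ : ℂ)) * deriv f w := by
      have h1 : HasDerivAt g (deriv f w + (δ : ℂ) * (deriv f w)) w := by
        have h2 := hfw.hasDerivAt
        exact h2.add ((h2.sub_const (f w)).const_mul (δ : ℂ))
      rw [h1.deriv]; ring
    have h1 := ih (G ∘ g) (hG.comp hgd hgO) (fun z hz => hG1 _ (hgO z hz))
    have h2 : deriv (G ∘ g) w = deriv G (f w) * ((1 + (δ : ℂ)) * deriv f w) := by
      rw [deriv_comp w, hgw, hgw']
      · rw [hgw]
        exact hG.differentiableAt (hO.mem_nhds (hmaps w hwO))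
      · exact hgd.differentiableAt (hO.mem_nhds hwO)
    rw [h2] at h1
    have h3 : ‖(1 + (δ : ℂ))‖ = 1 + δ := by
      have : (1 + (δ : ℂ)) = ((1 + δ : ℝ) : ℂ) := by push_cast; ring
      rw [this, Complex.norm_real, Real.norm_eq_abs, abs_of_pos (by linarith)]
    rw [norm_mul, norm_mul, h3] at h1
    rw [deriv_iter hO hf hmaps k hyO, norm_mul, Function.iterate_succ_apply', ← hw]
    calc ‖deriv G (f w)‖ * (‖deriv f w‖ * ‖deriv f^[k] y‖) * (1 + δ) ^ (k + 1)
        = ‖deriv G (f w)‖ * ((1 + δ) * ‖deriv f w‖) * ‖deriv f^[k] y‖ * (1 + δ) ^ k := by ring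
      _ ≤ 1 / r := h1

/-- All points of `O` are attracted by attracting cycles. -/
theorem attr_plane {f : ℂ → ℂ} {O : Set ℂ} (hO : IsOpen O) (hf : DifferentiableOn ℂ f O)
    {R η : ℝ} (hη : 0 < η) (hB : ∀ z ∈ O, ‖z‖ ≤ R) (hm : ∀ z ∈ O, ball (f z) η ⊆ O) {z : ℂ}
    (hz : z ∈ O) :
    ∃ n : ℕ, 0 < n ∧ ∃ x ∈ O, f^[n] x = x ∧
      (∃ r > 0, ∀ w ∈ ball x r, Tendsto (fun k : ℕ => f^[n * k] w) atTop (𝓝 x)) ∧
      ∃ a : ℕ, Tendsto (fun k : ℕ => f^[n * k] (f^[a] z)) atTop (𝓝 x) := by
  have hR : 0 ≤ R := (norm_nonneg z).trans (hB z hz)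
  have hmB : ∀ z ∈ O, f z ∈ O := fun z hz => hm z hz (mem_ball_self hη)
  set q : ℝ := 1 + η / (4 * (R + 1)) with hq
  have hq1 : 1 < q := by
    rw [hq]
    have : 0 < η / (4 * (R + 1)) := by positivity
    linarith
  -- the estimate of the derivative
  have hder : ∀ (r : ℝ) (y : ℂ), 0 < r → closedBall y r ⊆ O → ∀ k : ℕ,
      ‖deriv f^[k] y‖ ≤ (R + 1) / r / q ^ k := by
    intro r y hr hy k
    have h1 := carath_on hO hf hR hη (fun z hz => hB _ (hmB z hz)) hm hr hy k
      (fun u => u / ((R + 1 : ℝ) : ℂ))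
      ((differentiable_id.div_const _).differentiableOn) (by
        intro u hu
        rw [norm_div, Complex.norm_real, Real.norm_eq_abs, abs_of_pos (by linarith : (0:ℝ) < R + 1),
          div_le_one (by linarith)]
        have := hB u hu
        linarith)
    have h2 : deriv (fun u : ℂ => u / ((R + 1 : ℝ) : ℂ)) (f^[k] y) = 1 / ((R + 1 : ℝ) : ℂ) := by
      simp
    rw [h2, norm_div, norm_one, Complex.norm_real, Real.norm_eq_abs,
      abs_of_pos (by linarith : (0:ℝ) < R + 1), ← hq] at h1
    have hqk : 0 < q ^ k := by positivity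
    have hR1 : (0:ℝ) < R + 1 := by linarith
    rw [div_div, le_div_iff₀ (by positivity)]
    have h3 : 1 / (R + 1) * ‖deriv f^[k] y‖ * q ^ k * ((R + 1) * r) ≤ 1 / r * ((R + 1) * r) := by
      gcongr
    have h4 : 1 / (R + 1) * ‖deriv f^[k] y‖ * q ^ k * ((R + 1) * r) =
        ‖deriv f^[k] y‖ * (r * q ^ k) := by field_simp
    have h5 : 1 / r * ((R + 1) * r) = R + 1 := by field_simp
    rw [h4, h5] at h3
    exact h3
  -- the number of steps
  obtain ⟨m₀, hm₀⟩ : ∃ m₀ : ℕ, ∀ m ≥ m₀, (R + 1) / (η / 4) / q ^ m ≤ 1 / 4 := by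
    have h1 : Tendsto (fun m : ℕ => (R + 1) / (η / 4) / q ^ m) atTop (𝓝 0) :=
      tendsto_const_nhds.div_atTop (tendsto_pow_atTop_atTop_of_one_lt hq1)
    obtain ⟨m₀, h2⟩ := eventually_atTop.1 (h1.eventually (ge_mem_nhds (by norm_num : (0:ℝ) < 1/4)))
    exact ⟨m₀, fun m hm => h2 m hm⟩
  -- contraction near an image point
  have hcontr0 : ∀ (m : ℕ), m₀ ≤ m → ∀ y : ℂ, ball y η ⊆ O →
      LipschitzOnWith (1 / 4) f^[m] (closedBall y (η / 4)) := by
    intro m hm y hy
    apply Convex.lipschitzOnWith_of_nnnorm_deriv_le (𝕜 := ℂ)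
    · intro x hx
      refine (iter_diff hf hmB m).differentiableAt (hO.mem_nhds (hy ?_))
      rw [mem_closedBall] at hx
      rw [mem_ball]
      linarith
    · intro x hx
      rw [← NNReal.coe_le_coe]
      have h1 : ‖deriv f^[m] x‖ ≤ 1 / 4 := by
        refine (hder (η / 4) x (by positivity) ?_ m).trans (hm₀ m hm)
        intro u hu
        apply hy
        rw [mem_closedBall] at hx hu
        rw [mem_ball]
        have := dist_triangle u x y
        linarith
      simpa using h1
    · exact convex_closedBall _ _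
  -- two close times
  set w : ℕ → ℂ := fun k => f^[k + 1] z with hw
  have hwb : ∀ k, w k ∈ closedBall (0 : ℂ) R := by
    intro k
    rw [mem_closedBall_zero_iff]
    exact hB _ (iter_mem hmB _ hz)
  obtain ⟨a, -, φ, hφ, hlim⟩ := tendsto_subseq_of_bounded isBounded_closedBall hwb
  have hη8 : 0 < η / 16 := by positivity
  obtain ⟨N, hN⟩ := Metric.tendsto_atTop.1 hlim (η / 16) hη8
  set i : ℕ := φ N with hi
  set j : ℕ := φ (N + (m₀ + 1)) with hj
  have hij : i + (m₀ + 1) ≤ j := by
    have : ∀ t : ℕ, φ N + t ≤ φ (N + t) := by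
      intro t
      induction t with
      | zero => simp
      | succ t ih =>
        have h1 : φ (N + t) < φ (N + (t + 1)) := hφ (by omega)
        omega
    exact this _
  have hclose : ‖w j - w i‖ < η / 8 := by
    have h1 := hN N le_rfl
    have h2 := hN (N + (m₀ + 1)) (by omega)
    have h3 := dist_triangle_right (w j) (w i) a
    rw [dist_eq_norm] at h3
    simp only [Function.comp] at h1 h2
    rw [← hi] at h1
    rw [← hj] at h2
    linarith
  set m : ℕ := j - i with hmdef
  have hmm : m₀ + 1 ≤ m := by omega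
  have hm1 : 0 < m := by omega
  have hwj : w j = f^[m] (w i) := by
    simp only [hw]
    rw [← Function.iterate_add_apply]
    congr 1
    omega
  -- the ball
  have hwi : ball (w i) η ⊆ O := by
    simp only [hw]
    rw [Function.iterate_succ_apply']
    exact hm _ (iter_mem hmB i hz)
  have hlipon := hcontr0 m (by omega) (w i) hwi
  set s : Set ℂ := closedBall (w i) (η / 4) with hs
  have hwis : w i ∈ s := mem_closedBall_self (by positivity)
  have h14 : ((1 / 4 : NNReal) : ℝ) = 1 / 4 := by simp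
  have hmaps : MapsTo f^[m] s s := by
    intro y hy
    have h1 := hlipon.dist_le_mul y hy (w i) hwis
    rw [hs, mem_closedBall]
    rw [hs, mem_closedBall] at hy
    have h2 : dist (f^[m] (w i)) (w i) < η / 8 := by
      rw [← hwj, dist_eq_norm]; exact hclose
    have h3 := dist_triangle (f^[m] y) (f^[m] (w i)) (w i)
    rw [h14] at h1
    linarith
  have hcontr : ContractingWith (1 / 4) (hmaps.restrict f^[m] s s) := by
    refine ⟨by
      rw [← NNReal.coe_lt_coe]; norm_num, ?_⟩
    intro x y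
    exact hlipon x.2 y.2
  obtain ⟨x, hxs, hxfix, hxlim, -⟩ := hcontr.exists_fixedPoint' isClosed_closedBall.isComplete hmaps
    hwis (edist_ne_top _ _)
  have hxO : x ∈ O := hwi (by
    rw [mem_ball]; rw [hs, mem_closedBall] at hxs; linarith)
  have hxfix' : f^[m] x = x := hxfix
  have hxball : ball x η ⊆ O := by
    have h1 : x = f (f^[m - 1] x) := by
      rw [← Function.iterate_succ_apply' f]
      conv_lhs => rw [← hxfix']
      congr 2
      omega
    rw [h1]
    exact hm _ (iter_mem hmB _ hxO)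
  have hlipx := hcontr0 m (by omega) x hxball
  refine ⟨m, hm1, x, hxO, hxfix', ⟨η / 4, by positivity, ?_⟩, i + 1, ?_⟩
  · intro u hu
    have hk : ∀ k : ℕ, dist (f^[m * k] u) x ≤ (1 / 4) ^ k * (η / 4) := by
      intro k
      induction k with
      | zero =>
        rw [mem_ball] at hu
        simpa using hu.le
      | succ k ih =>
        have h1 : f^[m * (k + 1)] u = f^[m] (f^[m * k] u) := by
          rw [← Function.iterate_add_apply]
          congr 1
          ring
        rw [h1]
        have h2 : f^[m * k] u ∈ closedBall x (η / 4) := by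
          rw [mem_closedBall]
          have h3 : ((1 : ℝ) / 4) ^ k ≤ 1 := pow_le_one₀ (by norm_num) (by norm_num)
          nlinarith
        have h4 := hlipx.dist_le_mul _ h2 x (mem_closedBall_self (by positivity))
        rw [h14, hxfix'] at h4
        rw [pow_succ]
        linarith
    rw [tendsto_iff_dist_tendsto_zero]
    refine squeeze_zero (fun k => dist_nonneg) hk ?_
    have := (tendsto_pow_atTop_nhds_zero_of_lt_one (r := (1 : ℝ) / 4) (by norm_num)
      (by norm_num)).mul_const (η / 4)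
    simpa using this
  · have h2 : ∀ k : ℕ, (f^[m])^[k] (w i) = f^[m * k] (f^[i + 1] z) := by
      intro k
      rw [← Function.iterate_mul]
    exact hxlim.congr h2

end Pool.Agent.Y334.RM
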