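import Mathlib
import Pool.Agent.Y334.RM.Base
import Pool.Agent.Y334.RM.Plane

/-! Open sets of the sphere which are mapped into themselves with a margin. -/

set_option autoImplicit false

open Set Filter Topology Metric
open scoped OnePoint
open Pool.Agent.Helper114.Herman

namespace Pool.Agent.Y334.RM

/-- the orbit of `z` is attracted by a (topologically) attracting cycle -/
def AttT (f : Sp → Sp) (z : Sp) : Prop :=
  ∃ x : Sp, ∃ n : ℕ, 0 < n ∧ f^[n] x = x ∧
    (∃ U ∈ 𝓝 x, ∀ w ∈ U, Tendsto (fun k : ℕ => f^[n * k] w) atTop (𝓝 x)) ∧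
    Tendsto (fun k : ℕ => f^[n * k] z) atTop (𝓝 x)

theorem AttT.back {f : Sp → Sp} (hf : Continuous f) {z : Sp} (h : AttT f (f z)) : AttT f z := by
  obtain ⟨x, n, hn, hx, ⟨U, hU, hUx⟩, hz⟩ := h
  obtain ⟨m, rfl⟩ : ∃ m, n = m + 1 := ⟨n - 1, by omega⟩
  have key : ∀ y : Sp, Tendsto (fun k : ℕ => f^[(m + 1) * k] (f y)) atTop (𝓝 x) →
      Tendsto (fun k : ℕ => f^[(m + 1) * k] y) atTop (𝓝 (f^[m] x)) := by
    intro y hy
    have h1 : Tendsto (fun k : ℕ => f^[m] (f^[(m + 1) * k] (f y))) atTop (𝓝 (f^[m] x)) :=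
      ((hf.iterate m).tendsto x).comp hy
    have h2 : ∀ k : ℕ, f^[m] (f^[(m + 1) * k] (f y)) = f^[(m + 1) * (k + 1)] y := by
      intro k
      rw [← Function.iterate_succ_apply f, ← Function.iterate_add_apply]
      have h3 : m + ((m + 1) * k).succ = (m + 1) * (k + 1) := by
        rw [Nat.succ_eq_add_one]; ring
      rw [h3]
    simp only [h2] at h1
    exact (tendsto_add_atTop_iff_nat (f := fun k : ℕ => f^[(m + 1) * k] y) 1).1 h1
  refine ⟨f^[m] x, m + 1, hn, ?_, ⟨f ⁻¹' U, ?_, ?_⟩, key z hz⟩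
  · rw [← Function.iterate_add_apply, Nat.add_comm, Function.iterate_add_apply, hx]
  · apply hf.continuousAt
    rw [← Function.iterate_succ_apply' f, hx]
    exact hU
  · intro w hw
    exact key w (hUx _ hw)

theorem AttT.back_iter {f : Sp → Sp} (hf : Continuous f) (a : ℕ) {z : Sp} (h : AttT f (f^[a] z)) :
    AttT f z := by
  induction a with
  | zero => exact h
  | succ a ih =>
    rw [Function.iterate_succ_apply'] at h
    exact ih (AttT.back hf h)

/-- the coordinate of a finite point -/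
noncomputable def co (x : Sp) : ℂ :=
  match x with
  | none => 0
  | some z => z

theorem co_coe (z : ℂ) : co (z : Sp) = z := rfl

theorem coe_co {x : Sp} (h : x ≠ ∞) : ((co x : ℂ) : Sp) = x := by
  induction x using OnePoint.rec with
  | infty => exact absurd rfl h
  | coe z => rfl

theorem far_of_nhds {U : Set Sp} (hU : U ∈ 𝓝 (∞ : Sp)) : ∃ R : ℝ, ∀ u : ℂ, R ≤ ‖u‖ → (u : Sp) ∈ U := by
  have h1 : Tendsto (fun u : ℂ => (u : Sp)) (Bornology.cobounded ℂ) (𝓝 ∞) :=
    tendsto_coe_nhds_infty_of_norm tendsto_norm_cobounded_atTop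
  obtain ⟨R, hR⟩ := (Filter.HasBasis.eventually_iff (hasBasis_cobounded_norm)).1
    (h1.eventually hU)
  exact ⟨R, fun u hu => hR.2 hu⟩

/-- Points of an open set which is mapped into itself with a margin, and which is not dense, are
attracted. -/
theorem att_sphere {G : Sp → Sp} (hG : HolMap G) {V : Set Sp} (hV : IsOpen V)
    (hcl : closure (G '' V) ⊆ V) (hint : (interior Vᶜ).Nonempty) {z : Sp} (hz : z ∈ V) :
    AttT G z := by
  obtain ⟨w₀, hw₀⟩ := hint
  obtain ⟨H, hH0, hH1, hH2, -⟩ := exists_conj w₀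
  have hGV : ∀ y ∈ V, G y ∈ V := fun y hy => hcl (subset_closure (mem_image_of_mem _ hy))
  set O : Set ℂ := {u | H.symm (u : Sp) ∈ V} with hO
  have hOo : IsOpen O := hV.preimage (H.symm.continuous.comp OnePoint.continuous_coe)
  -- the points of `V` are finite in the new coordinate
  have hfin : ∀ y ∈ V, H y ≠ ∞ := by
    intro y hy h1
    have h2 : y = w₀ := H.injective (by rw [h1, hH0])
    exact (interior_subset hw₀) (h2 ▸ hy)
  obtain ⟨R, hR⟩ : ∃ R : ℝ, ∀ u ∈ O, ‖u‖ ≤ R := by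
    have h1 : H.symm ⁻¹' (interior Vᶜ) ∈ 𝓝 (∞ : Sp) := by
      apply (isOpen_interior.preimage H.symm.continuous).mem_nhds
      show H.symm ∞ ∈ interior Vᶜ
      rw [← hH0, H.symm_apply_apply]
      exact hw₀
    obtain ⟨R, hR⟩ := far_of_nhds h1
    refine ⟨R, fun u hu => ?_⟩
    by_contra hcon
    push Not at hcon
    exact (interior_subset (hR u hcon.le)) hu
  set f : ℂ → ℂ := fun u => co (H (G (H.symm (u : Sp)))) with hf
  have hfc : ∀ u ∈ O, ((f u : ℂ) : Sp) = H (G (H.symm (u : Sp))) := fun u hu =>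
    coe_co (hfin _ (hGV _ hu))
  have hfO : ∀ u ∈ O, f u ∈ O := by
    intro u hu
    show H.symm ((f u : ℂ) : Sp) ∈ V
    rw [hfc u hu, H.symm_apply_apply]
    exact hGV _ hu
  have hfd : DifferentiableOn ℂ f O := by
    intro u hu
    have h1 : HolAt (fun w : ℂ => H (G (H.symm (w : Sp)))) u :=
      hH1 _ _ (hG _ _ (hH2 _ _ (holAt_coe analyticAt_id)))
    obtain ⟨g, hg, h2⟩ := h1.exists_coe (hfin _ (hGV _ hu))
    have h3 : f =ᶠ[𝓝 u] g := by
      filter_upwards [h2] with w hw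
      show co (H (G (H.symm (w : Sp)))) = g w
      rw [hw, co_coe]
    exact (hg.differentiableAt.congr_of_eventuallyEq h3).differentiableWithinAt
  have hKO : closure (f '' O) ⊆ O := by
    intro u hu
    show H.symm (u : Sp) ∈ V
    apply hcl
    have h1 : Continuous fun u : ℂ => H.symm (u : Sp) :=
      H.symm.continuous.comp OnePoint.continuous_coe
    have h2 := image_closure_subset_closure_image h1 (s := f '' O)
    have h3 : H.symm (u : Sp) ∈ closure ((fun u : ℂ => H.symm (u : Sp)) '' (f '' O)) :=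
      h2 (mem_image_of_mem _ hu)
    refine closure_mono ?_ h3
    rintro _ ⟨_, ⟨v, hv, rfl⟩, rfl⟩
    show H.symm ((f v : ℂ) : Sp) ∈ G '' V
    rw [hfc v hv, H.symm_apply_apply]
    exact ⟨_, hv, rfl⟩
  have hKc : IsCompact (closure (f '' O)) := by
    apply Metric.isCompact_of_isClosed_isBounded isClosed_closure
    apply Bornology.IsBounded.subset (isBounded_closedBall (x := (0 : ℂ)) (r := R))
    intro u hu
    rw [mem_closedBall_zero_iff]
    exact hR u (hKO hu)
  obtain ⟨η, hη, hthick⟩ := hKc.exists_thickening_subset_open hOo hKO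
  have hm : ∀ u ∈ O, ball (f u) η ⊆ O := by
    intro u hu v hv
    apply hthick
    rw [mem_thickening_iff]
    exact ⟨f u, subset_closure (mem_image_of_mem _ hu), hv⟩
  set u₀ : ℂ := co (H z) with hu₀
  have hu₀c : (u₀ : Sp) = H z := coe_co (hfin z hz)
  have hu₀O : u₀ ∈ O := by
    show H.symm (u₀ : Sp) ∈ V
    rw [hu₀c, H.symm_apply_apply]
    exact hz
  obtain ⟨n, hn, x, hxO, hx, ⟨r, hr, hball⟩, a, ha⟩ := attr_plane hOo hfd hη hR hm hu₀O
  -- transfer
  have htr : ∀ (k : ℕ), ∀ u ∈ O, G^[k] (H.symm (u : Sp)) = H.symm ((f^[k] u : ℂ) : Sp) := by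
    intro k u hu
    induction k with
    | zero => rfl
    | succ k ih =>
      rw [Function.iterate_succ_apply', ih, Function.iterate_succ_apply',
        hfc _ (iter_mem hfO k hu), H.symm_apply_apply]
  have hcont : Continuous fun u : ℂ => H.symm (u : Sp) :=
    H.symm.continuous.comp OnePoint.continuous_coe
  apply AttT.back_iter hG.continuous a
  refine ⟨H.symm (x : Sp), n, hn, ?_, ⟨(fun u : ℂ => H.symm (u : Sp)) '' (ball x r ∩ O), ?_, ?_⟩, ?_⟩
  · rw [htr n x hxO, hx]
  · have h1 : IsOpenMap fun u : ℂ => H.symm (u : Sp) :=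
      H.symm.isOpenMap.comp OnePoint.isOpenEmbedding_coe.isOpenMap
    exact (h1 _ (isOpen_ball.inter hOo)).mem_nhds ⟨x, ⟨mem_ball_self hr, hxO⟩, rfl⟩
  · rintro _ ⟨u, ⟨hu1, hu2⟩, rfl⟩
    have h1 := (hcont.tendsto x).comp (hball u hu1)
    refine h1.congr fun k => ?_
    show H.symm ((f^[n * k] u : ℂ) : Sp) = _
    rw [← htr _ u hu2]
  · have h1 := (hcont.tendsto x).comp ha
    have h2 : z = H.symm (u₀ : Sp) := by rw [hu₀c, H.symm_apply_apply]
    refine h1.congr fun k => ?_
    show H.symm ((f^[n * k] (f^[a] u₀) : ℂ) : Sp) = _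
    rw [h2, htr a u₀ hu₀O, htr _ _ (iter_mem hfO a hu₀O)]

end Pool.Agent.Y334.RM
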