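import Mathlib
import Pool.Agent.Y334.RM.Att

/-! Critical points of rational maps. -/

set_option autoImplicit false

open Set Filter Topology Metric Polynomial
open scoped OnePoint
open Pool.Agent.Helper114.Herman

namespace Pool.Agent.Y334.RM

/-- locally injective at `z` -/
def LI (f : Sp → Sp) (z : Sp) : Prop := ∃ U ∈ 𝓝 z, InjOn f U

theorem li_of_deriv {h : ℂ → ℂ} {z : ℂ} (ha : AnalyticAt ℂ h z) (hd : deriv h z ≠ 0) :
    ∃ U ∈ 𝓝 z, InjOn h U := by
  have h1 := (ha.hasStrictDerivAt).hasStrictFDerivAt_equiv hd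
  refine ⟨_, h1.eventually_left_inverse, ?_⟩
  intro x hx y hy hxy
  have hx' : h1.localInverse h _ z (h x) = x := hx
  have hy' : h1.localInverse h _ z (h y) = y := hy
  rw [← hx', ← hy', hxy]

theorem deriv_of_li {h : ℂ → ℂ} {z : ℂ} (ha : AnalyticAt ℂ h z) {U : Set ℂ} (hU : U ∈ 𝓝 z)
    (hi : InjOn h U) : deriv h z ≠ 0 := by
  obtain ⟨W, hWU, hWo, hWz⟩ := _root_.mem_nhds_iff.1 (inter_mem hU ha.eventually_analyticAt)
  exact Pool.Agent.Helper114.Montel.deriv_ne_zero_of_injOn hWo h
    (fun x hx => ((hWU hx).2 : AnalyticAt ℂ h x).differentiableAt.differentiableWithinAt)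
    (hi.mono fun x hx => (hWU hx).1) hWz

/-- Local injectivity in charts. -/
theorem li_chart {f : Sp → Sp} {b b' : Bool} {z : ℂ} {h : ℂ → ℂ} (ha : AnalyticAt ℂ h z)
    (hf : ∀ᶠ w in 𝓝 z, f (kap b w) = kap b' (h w)) : LI f (kap b z) ↔ deriv h z ≠ 0 := by
  have hb := (isOpenEmbedding_kap b).injective
  have hb' := (isOpenEmbedding_kap b').injective
  constructor
  · rintro ⟨U, hU, hi⟩
    have h1 : (kap b) ⁻¹' U ∈ 𝓝 z := (isOpenEmbedding_kap b).continuous.continuousAt hU
    apply deriv_of_li ha (inter_mem h1 hf)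
    rintro x ⟨hx1, hx2⟩ y ⟨hy1, hy2⟩ hxy
    apply hb
    apply hi hx1 hy1
    have hx3 : f (kap b x) = kap b' (h x) := hx2
    have hy3 : f (kap b y) = kap b' (h y) := hy2
    rw [hx3, hy3, hxy]
  · intro hd
    obtain ⟨U, hU, hi⟩ := li_of_deriv ha hd
    refine ⟨kap b '' (U ∩ {w | f (kap b w) = kap b' (h w)}), ?_, ?_⟩
    · rw [nhds_kap]
      exact image_mem_map (inter_mem hU hf)
    · rintro _ ⟨x, ⟨hx1, hx2⟩, rfl⟩ _ ⟨y, ⟨hy1, hy2⟩, rfl⟩ hxy
      have hx3 : f (kap b x) = kap b' (h x) := hx2
      have hy3 : f (kap b y) = kap b' (h y) := hy2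
      rw [hx3, hy3] at hxy
      rw [hi hx1 hy1 (hb' hxy)]

/-- the Wronskian -/
noncomputable def wron (P Q : ℂ[X]) : ℂ[X] := derivative P * Q - P * derivative Q

theorem rat_coe {f : Sp → Sp} {P Q : ℂ[X]} (hf : IsRat f P Q)
    (hd0 : 0 < max P.natDegree Q.natDegree) (z : ℂ) :
    f (z : Sp) = pr (P.eval z) (Q.eval z) ∧ (P.eval z ≠ 0 ∨ Q.eval z ≠ 0) := by
  have h1 : f (pr z 1) = pr (hom P _ z 1) (hom Q _ z 1) :=
    rat_formula hf rfl hd0 (Or.inr one_ne_zero)
  have h2 := hom_not_both hf.cop rfl (u := z) (v := 1) (Or.inr one_ne_zero) hd0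
  rw [pr_one] at h1
  rw [hom_ne (le_max_left _ _) one_ne_zero, hom_ne (le_max_right _ _) one_ne_zero] at h1 h2
  simp only [one_pow, one_mul, div_one] at h1 h2
  exact ⟨h1, h2⟩

theorem li_rat {f : Sp → Sp} {P Q : ℂ[X]} (hf : IsRat f P Q)
    (hd0 : 0 < max P.natDegree Q.natDegree) (z : ℂ) : LI f (z : Sp) ↔ (wron P Q).eval z ≠ 0 := by
  have hP : AnalyticAt ℂ (fun w => P.eval w) z := P.differentiable.analyticAt z
  have hQ : AnalyticAt ℂ (fun w => Q.eval w) z := Q.differentiable.analyticAt z
  have hPd : HasDerivAt (fun w => P.eval w) ((derivative P).eval z) z := P.hasDerivAt z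
  have hQd : HasDerivAt (fun w => Q.eval w) ((derivative Q).eval z) z := Q.hasDerivAt z
  by_cases hq : Q.eval z = 0
  · have hp : P.eval z ≠ 0 := by
      rcases (rat_coe hf hd0 z).2 with h | h
      · exact h
      · exact absurd hq h
    have h1 : ∀ᶠ w in 𝓝 z, f (kap false w) = kap true (Q.eval w / P.eval w) := by
      filter_upwards [hP.continuousAt.eventually_ne hp] with w hw
      rw [kap_false, kap_true, (rat_coe hf hd0 w).1, ← pr_ne hw, sinv_pr (Or.inr hw)]
    have h2 := li_chart (hQ.div hP hp) h1
    rw [kap_false] at h2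
    rw [h2]
    have h3 : deriv ((fun w => Q.eval w) / fun w => P.eval w) z =
        ((derivative Q).eval z * P.eval z - Q.eval z * (derivative P).eval z) / P.eval z ^ 2 :=
      (hQd.div hPd hp).deriv
    rw [h3, Ne, Ne, not_iff_not, div_eq_zero_iff, wron]
    simp only [eval_sub, eval_mul]
    constructor
    · rintro (h | h)
      · linear_combination -h
      · exact absurd h (pow_ne_zero _ hp)
    · intro h
      left
      linear_combination -h
  · have h1 : ∀ᶠ w in 𝓝 z, f (kap false w) = kap false (P.eval w / Q.eval w) := by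
      filter_upwards [hQ.continuousAt.eventually_ne hq] with w hw
      rw [kap_false, kap_false, (rat_coe hf hd0 w).1, pr_ne hw]
    have h2 := li_chart (hP.div hQ hq) h1
    rw [kap_false] at h2
    rw [h2]
    have h3 : deriv ((fun w => P.eval w) / fun w => Q.eval w) z =
        ((derivative P).eval z * Q.eval z - P.eval z * (derivative Q).eval z) / Q.eval z ^ 2 :=
      (hPd.div hQd hq).deriv
    rw [h3, Ne, Ne, not_iff_not, div_eq_zero_iff, wron]
    simp only [eval_sub, eval_mul]
    constructor
    · rintro (h | h)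
      · exact h
      · exact absurd h (pow_ne_zero _ hq)
    · intro h
      left
      exact h

theorem wron_coeff (P Q : ℂ[X]) (h : 1 ≤ P.natDegree + Q.natDegree) :
    (wron P Q).coeff (P.natDegree + Q.natDegree - 1) =
      ((P.natDegree : ℂ) - Q.natDegree) * (P.leadingCoeff * Q.leadingCoeff) := by
  have key : ∀ A B : ℂ[X], 1 ≤ A.natDegree + B.natDegree →
      (derivative A * B).coeff (A.natDegree + B.natDegree - 1) =
        (A.natDegree : ℂ) * (A.leadingCoeff * B.leadingCoeff) := by
    intro A B hAB
    by_cases hA : A.natDegree = 0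
    · have h1 : derivative A = 0 := by
        rw [eq_C_of_natDegree_eq_zero hA, derivative_C]
      rw [h1, hA]
      simp
    · have h1 : A.natDegree + B.natDegree - 1 = (A.natDegree - 1) + B.natDegree := by omega
      rw [h1, coeff_mul_add_eq_of_natDegree_le (natDegree_derivative_le A) le_rfl, coeff_derivative]
      have h2 : A.natDegree - 1 + 1 = A.natDegree := by omega
      rw [h2, coeff_natDegree, coeff_natDegree]
      have h3 : ((A.natDegree - 1 : ℕ) : ℂ) + 1 = A.natDegree := by
        have : ((A.natDegree - 1 + 1 : ℕ) : ℂ) = A.natDegree := by rw [h2]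
        push_cast at this
        exact this
      rw [h3]
      ring
  rw [wron, coeff_sub, key P Q h]
  have h2 := key Q P (by omega)
  rw [mul_comm P, add_comm P.natDegree, h2]
  ring

theorem wron_root_aux {P Q : ℂ[X]} (hP : P ≠ 0) (hQ : Q ≠ 0) (hne : P.natDegree ≠ Q.natDegree)
    (h2 : 2 ≤ P.natDegree + Q.natDegree) : ∃ z : ℂ, (wron P Q).eval z = 0 := by
  have h1 := wron_coeff P Q (by omega)
  have h3 : (wron P Q).coeff (P.natDegree + Q.natDegree - 1) ≠ 0 := by
    rw [h1]
    refine mul_ne_zero ?_ (mul_ne_zero (leadingCoeff_ne_zero.2 hP) (leadingCoeff_ne_zero.2 hQ))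
    rw [sub_ne_zero]
    exact_mod_cast hne
  have h4 : P.natDegree + Q.natDegree - 1 ≤ (wron P Q).natDegree := le_natDegree_of_ne_zero h3
  have h5 : 0 < (wron P Q).degree := by
    rw [← natDegree_pos_iff_degree_pos]
    omega
  obtain ⟨z, hz⟩ := Complex.exists_root h5
  exact ⟨z, hz⟩

theorem wron_root {P Q : ℂ[X]} (hc : IsCoprime P Q) (hQ0 : Q ≠ 0)
    (hd : 2 ≤ max P.natDegree Q.natDegree) : ∃ z : ℂ, (wron P Q).eval z = 0 := by
  by_cases hP0 : P = 0
  · exfalso
    rw [hP0] at hc hd
    have hu : IsUnit Q := isCoprime_zero_left.1 hc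
    have hQd : Q.natDegree = 0 := natDegree_eq_zero_of_isUnit hu
    rw [hQd] at hd
    simp at hd
  · by_cases hne : P.natDegree = Q.natDegree
    · -- subtract a multiple
      set t : ℂ := P.leadingCoeff / Q.leadingCoeff with ht
      set P₁ : ℂ[X] := P - C t * Q with hP₁
      have hQl : Q.leadingCoeff ≠ 0 := leadingCoeff_ne_zero.2 hQ0
      have hPl : P.leadingCoeff ≠ 0 := leadingCoeff_ne_zero.2 hP0
      have ht0 : t ≠ 0 := div_ne_zero hPl hQl
      have hw : wron P₁ Q = wron P Q := by
        rw [wron, wron, hP₁, derivative_sub, derivative_C_mul]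
        ring
      have hQd : 2 ≤ Q.natDegree := by rw [hne] at hd; simpa using hd
      have hP₁0 : P₁ ≠ 0 := by
        intro h0
        have h1 : P = C t * Q := sub_eq_zero.1 h0
        have hu : IsUnit Q := hc.symm.isUnit_of_dvd ⟨C t, by rw [h1]; ring⟩
        have := natDegree_eq_zero_of_isUnit hu
        omega
      have hlt : P₁.natDegree < Q.natDegree := by
        have h1 : P₁.degree < P.degree := by
          apply degree_sub_lt_left
          · rw [degree_C_mul ht0, degree_eq_natDegree hP0, degree_eq_natDegree hQ0, hne]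
          · exact hP0
          · rw [leadingCoeff_mul, leadingCoeff_C, ht, div_mul_cancel₀ _ hQl]
        have h2 := natDegree_lt_natDegree hP₁0 h1
        omega
      obtain ⟨z, hz⟩ := wron_root_aux hP₁0 hQ0 hlt.ne (by omega)
      exact ⟨z, by rwa [hw] at hz⟩
    · exact wron_root_aux hP0 hQ0 hne (by
        rcases le_total P.natDegree Q.natDegree with h | h
        · rw [max_eq_right h] at hd; omega
        · rw [max_eq_left h] at hd; omega)

/-- Everything we need about a rational map. -/
structure Good (g : Sp → Sp) : Prop where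
  hol : HolMap g
  surj : Function.Surjective g
  fib : ∀ x, (g ⁻¹' {x}).Finite
  crit : ∃ C : Finset Sp, ∀ z, z ∉ C → LI g z
  ex : ∃ c, ¬ LI g c

theorem good_rat {f : Sp → Sp} {P Q : ℂ[X]} (hf : IsRat f P Q)
    (hd : 2 ≤ max P.natDegree Q.natDegree) : Good f := by
  classical
  have hd0 : 0 < max P.natDegree Q.natDegree := by omega
  refine ⟨fun φ z h => h.rat hf hd0, ?_, finite_fiber hf hd0, ?_, ?_⟩
  · have h1 : IsOpen (range f) := (isOpenMap_rat hf hd0).isOpen_range
    have h2 : IsClosed (range f) := (isCompact_range hf.cont).isClosed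
    have h3 : range f = univ := IsClopen.eq_univ ⟨h2, h1⟩ (range_nonempty f)
    exact range_eq_univ.1 h3
  · by_cases hw : wron P Q = 0
    · -- impossible, but not needed: use a root of another polynomial
      exfalso
      -- the fibres would be infinite: `f` has nonvanishing derivative nowhere
      have hall : ∀ z : ℂ, ¬ LI f (z : Sp) := by
        intro z h
        have := (li_rat hf hd0 z).1 h
        rw [hw] at this
        simp at this
      -- choose a point where `Q ≠ 0`, then `P / Q` is locally constant there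
      obtain ⟨z, hz⟩ : ∃ z : ℂ, Q.eval z ≠ 0 := by
        by_contra hcon
        push Not at hcon
        exact hf.ne (Polynomial.funext fun z => by rw [hcon z, eval_zero])
      have hopen : IsOpen {w : ℂ | Q.eval w ≠ 0} := isOpen_ne_fun Q.continuous continuous_const
      obtain ⟨r, hr, hball⟩ := Metric.isOpen_iff.1 hopen z hz
      have hconst : ∀ w ∈ ball z r, P.eval w / Q.eval w = P.eval z / Q.eval z := by
        intro w hw'
        refine (convex_ball z r).is_const_of_fderivWithin_eq_zero (𝕜 := ℂ)
          (f := fun w => P.eval w / Q.eval w) ?_ ?_ hw' (mem_ball_self hr)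
        · intro u hu
          exact ((P.differentiable u).div (Q.differentiable u) (hball hu)).differentiableWithinAt
        · intro u hu
          rw [fderivWithin_of_isOpen isOpen_ball hu]
          have h3 : HasDerivAt (fun w => P.eval w / Q.eval w)
              (((derivative P).eval u * Q.eval u - P.eval u * (derivative Q).eval u) /
                Q.eval u ^ 2) u := (P.hasDerivAt u).div (Q.hasDerivAt u) (hball hu)
          have h4 : (derivative P).eval u * Q.eval u - P.eval u * (derivative Q).eval u = 0 := by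
            have := congrArg (eval u) hw
            simpa [wron] using this
          rw [h4, zero_div] at h3
          have h5 := h3.hasFDerivAt.fderiv
          rw [h5]
          ext
          simp
      have hinf : (((↑) : ℂ → Sp) '' ball z r).Infinite := by
        apply Set.Infinite.image OnePoint.coe_injective.injOn
        exact infinite_of_mem_nhds z (ball_mem_nhds z hr)
      apply hinf
      refine (finite_fiber hf hd0 (f (z : Sp))).subset ?_
      rintro _ ⟨w, hw', rfl⟩
      show f (w : Sp) = f (z : Sp)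
      rw [hf.eval w (hball hw'), hf.eval z hz, hconst w hw']
    · refine ⟨insert ∞ ((wron P Q).roots.toFinset.image (fun z : ℂ => (z : Sp))), ?_⟩
      intro z hz
      induction z using OnePoint.rec with
      | infty => exact absurd (Finset.mem_insert_self _ _) hz
      | coe z =>
        rw [li_rat hf hd0]
        intro h0
        apply hz
        apply Finset.mem_insert_of_mem
        refine Finset.mem_image.2 ⟨z, ?_, rfl⟩
        rw [Multiset.mem_toFinset, mem_roots hw]
        exact h0
  · obtain ⟨z, hz⟩ := wron_root hf.cop hf.ne hd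
    exact ⟨(z : Sp), fun h => ((li_rat hf hd0 z).1 h) hz⟩

end Pool.Agent.Y334.RM
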