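import Mathlib
import Pool.Agent.Y334.RM.Att
import Pool.Agent.Y334.NA.EX

/-! Finitely many holomorphic maps of the sphere with a common trap at infinity, followed by small
translations: hyperbolic compositions of all large lengths. -/

set_option autoImplicit false

open Set Filter Topology Metric
open scoped OnePoint
open Pool.Agent.Helper114.Herman

namespace Pool.Agent.Y334.RM

/-- maps with a common trap -/
structure Sys (I : Type) where
  F : I → Sp → Sp
  ell : I → ℕ
  C : Finset Sp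
  D : Set Sp
  η : ℝ
  n₁ : ℕ
  hol : ∀ i, HolMap (F i)
  ell1 : ∀ i, 1 ≤ ell i
  inj : ∀ i z, z ∉ C → ∃ U ∈ 𝓝 z, InjOn (F i) U
  Dopen : IsOpen D
  Dinf : ∞ ∈ D
  Dcomp : (interior Dᶜ).Nonempty
  η0 : 0 < η
  DD : ∀ i z β, z ∈ D → ‖β‖ < η → tau β (F i z) ∈ D
  lens : ∀ n ≥ n₁, ∃ l : List I, (l.map ell).sum = n

variable {I : Type}

namespace Sys

variable (S : Sys I)

/-- the map of a word -/
noncomputable def ev : List (I × ℂ) → Sp → Sp
  | [], z => z
  | p :: w, z => ev w (tau p.2 (S.F p.1 z))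

theorem ev_append (w₁ w₂ : List (I × ℂ)) (z : Sp) :
    S.ev (w₁ ++ w₂) z = S.ev w₂ (S.ev w₁ z) := by
  induction w₁ generalizing z with
  | nil => rfl
  | cons p w ih => exact ih _

theorem ev_hol (w : List (I × ℂ)) : HolMap (S.ev w) := by
  induction w with
  | nil => exact HolMap.id
  | cons p w ih => exact ih.comp ((tau_hol p.2).comp (S.hol p.1))

/-- admissible words -/
def adm (w : List (I × ℂ)) : Prop := ∀ p ∈ w, ‖p.2‖ < S.η

/-- the length of a word -/
def len (w : List (I × ℂ)) : ℕ := (w.map fun p => S.ell p.1).sum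

theorem len_append (w₁ w₂ : List (I × ℂ)) : S.len (w₁ ++ w₂) = S.len w₁ + S.len w₂ := by
  simp [len]

theorem length_le (w : List (I × ℂ)) : w.length ≤ S.len w := by
  induction w with
  | nil => simp
  | cons p w ih =>
    have h1 := S.ell1 p.1
    simp only [len, List.map_cons, List.sum_cons, List.length_cons] at ih ⊢
    omega

variable {S}

theorem adm.append {w₁ w₂ : List (I × ℂ)} (h₁ : S.adm w₁) (h₂ : S.adm w₂) : S.adm (w₁ ++ w₂) := by
  intro p hp
  rcases List.mem_append.1 hp with h | h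
  · exact h₁ p h
  · exact h₂ p h

theorem D_ev {w : List (I × ℂ)} (hw : S.adm w) {z : Sp} (hz : z ∈ S.D) : S.ev w z ∈ S.D := by
  induction w generalizing z with
  | nil => exact hz
  | cons p w ih =>
    exact ih (fun q hq => hw q (List.mem_cons_of_mem _ hq))
      (S.DD p.1 z p.2 hz (hw p List.mem_cons_self))

variable (S)

/-- the points which do not enter the trap -/
def B : Set Sp := {z | ∀ w, S.adm w → S.ev w z ∉ S.D}

/-- the killed points -/
def K : Set Sp := S.D ∪ interior S.B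

theorem B_closed : IsClosed S.B := by
  have h1 : S.B = ⋂ (w : List (I × ℂ)) (_ : S.adm w), (S.ev w) ⁻¹' S.Dᶜ := by
    ext z; simp [B]
  rw [h1]
  exact isClosed_iInter fun w => isClosed_iInter fun _ =>
    S.Dopen.isClosed_compl.preimage (S.ev_hol w).continuous

theorem B_step {i : I} {z : Sp} {β : ℂ} (hz : z ∈ S.B) (hβ : ‖β‖ < S.η) :
    tau β (S.F i z) ∈ interior S.B := by
  have hne : S.F i z ≠ ∞ := by
    intro h
    have h1 : S.adm [(i, (0 : ℂ))] := by
      intro p hp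
      rw [List.mem_singleton] at hp
      rw [hp]
      simpa using S.η0
    apply hz _ h1
    show tau 0 (S.F i z) ∈ S.D
    rw [h, tau_infty]
    exact S.Dinf
  obtain ⟨a, ha⟩ := OnePoint.ne_infty_iff_exists.1 hne
  have hopen : IsOpen ((fun u : ℂ => (u : Sp)) '' ball a S.η) :=
    OnePoint.isOpenEmbedding_coe.isOpenMap _ isOpen_ball
  refine mem_interior.2 ⟨_, ?_, hopen, ?_⟩
  · rintro _ ⟨u, hu, rfl⟩
    intro w hw
    rw [mem_ball, dist_eq_norm] at hu
    have h1 : S.adm ((i, u - a) :: w) := by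
      intro p hp
      rcases List.mem_cons.1 hp with rfl | hp
      · exact hu
      · exact hw p hp
    have h2 := hz _ h1
    have h3 : S.ev ((i, u - a) :: w) z = S.ev w (u : Sp) := by
      show S.ev w (tau (u - a) (S.F i z)) = _
      rw [← ha, tau_coe, add_sub_cancel]
    rwa [h3] at h2
  · refine ⟨a + β, ?_, ?_⟩
    · rw [mem_ball, dist_eq_norm, add_sub_cancel_left]
      exact hβ
    · rw [← ha, tau_coe]

theorem K_open : IsOpen S.K := S.Dopen.union isOpen_interior

variable {S}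

theorem K_ev {w : List (I × ℂ)} (hw : S.adm w) {z : Sp} (hz : z ∈ S.K) : S.ev w z ∈ S.K := by
  induction w generalizing z with
  | nil => exact hz
  | cons p w ih =>
    apply ih (fun q hq => hw q (List.mem_cons_of_mem _ hq))
    rcases hz with h | h
    · exact Or.inl (S.DD p.1 z p.2 h (hw p List.mem_cons_self))
    · exact Or.inr (S.B_step (interior_subset h) (hw p List.mem_cons_self))

variable (S)

theorem exists_index (S' : Sys I) : Nonempty I := by
  obtain ⟨l, hl⟩ := S'.lens (S'.n₁ + 1) (by omega)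
  cases l with
  | nil => simp at hl
  | cons i l => exact ⟨i⟩

theorem reach (z : Sp) : ∃ w, S.adm w ∧ S.ev w z ∈ S.K := by
  by_cases hz : z ∈ S.B
  · obtain ⟨i⟩ := S.exists_index
    refine ⟨[(i, 0)], ?_, Or.inr (S.B_step hz (by simpa using S.η0))⟩
    intro p hp
    rw [List.mem_singleton] at hp
    rw [hp]
    simpa using S.η0
  · simp only [B, mem_ofPred_eq, not_forall, not_not] at hz
    obtain ⟨w, hw, h⟩ := hz
    exact ⟨w, hw, Or.inl h⟩

theorem exists_word {n : ℕ} (hn : S.n₁ ≤ n) : ∃ w, S.adm w ∧ S.len w = n := by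
  obtain ⟨l, hl⟩ := S.lens n hn
  refine ⟨l.map fun i => (i, (0 : ℂ)), ?_, ?_⟩
  · intro p hp
    obtain ⟨i, -, rfl⟩ := List.mem_map.1 hp
    simpa using S.η0
  · rw [len, List.map_map, ← hl]
    rfl

/-- finitely many words of the same length are enough -/
theorem finite_words : ∃ (L : ℕ) (W : Finset (List (I × ℂ))), 1 ≤ L ∧
    (∀ w ∈ W, S.adm w ∧ S.len w = L) ∧ ∀ z, ∃ w ∈ W, S.ev w z ∈ S.K := by
  classical
  choose w hw1 hw2 using S.reach
  obtain ⟨t, -, ht⟩ := isCompact_univ.elim_nhds_subcover (fun z : Sp => (S.ev (w z)) ⁻¹' S.K)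
    (fun z _ => (S.K_open.preimage (S.ev_hol (w z)).continuous).mem_nhds (hw2 z))
  set m : ℕ := ∑ z ∈ t, S.len (w z) with hm
  have hle : ∀ z ∈ t, S.len (w z) ≤ m := fun z hz =>
    Finset.single_le_sum (f := fun z => S.len (w z)) (fun _ _ => Nat.zero_le _) hz
  have hpad : ∀ z ∈ t, ∃ v, S.adm v ∧ S.len v = m + S.n₁ + 1 - S.len (w z) := by
    intro z hz
    apply S.exists_word
    have := hle z hz
    omega
  choose! v hv1 hv2 using hpad
  refine ⟨m + S.n₁ + 1, t.image (fun z => w z ++ v z), by omega, ?_, ?_⟩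
  · intro u hu
    obtain ⟨z, hz, rfl⟩ := Finset.mem_image.1 hu
    refine ⟨(hw1 z).append (hv1 z hz), ?_⟩
    rw [S.len_append, hv2 z hz]
    have := hle z hz
    omega
  · intro z
    obtain ⟨x, hx, hzx⟩ := mem_iUnion₂.1 (ht (mem_univ z))
    refine ⟨_, Finset.mem_image_of_mem _ hx, ?_⟩
    rw [S.ev_append]
    exact K_ev (hv1 x hx) hzx

/-- indicator of the bad event -/
noncomputable def bad (φ : List (List (I × ℂ))) (x : Sp) : ℝ :=
  open scoped Classical in if S.ev φ.flatten x ∈ S.K then 0 else 1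

theorem bad_nonneg (φ : List (List (I × ℂ))) (x : Sp) : 0 ≤ S.bad φ x := by
  unfold bad; split_ifs <;> norm_num

theorem bad_le (φ : List (List (I × ℂ))) (x : Sp) : S.bad φ x ≤ 1 := by
  unfold bad; split_ifs <;> norm_num

variable {S}

theorem of_bad {φ : List (List (I × ℂ))} {x : Sp} (h : S.bad φ x < 1) :
    S.ev φ.flatten x ∈ S.K := by
  unfold bad at h
  split_ifs at h with h1
  · exact h1
  · exact absurd h (lt_irrefl _)

theorem flatten_adm {W : Finset (List (I × ℂ))} (hW : ∀ w ∈ W, S.adm w)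
    {φ : List (List (I × ℂ))} (hφ : ∀ b ∈ φ, b ∈ W) : S.adm φ.flatten := by
  intro p hp
  obtain ⟨b, hb, hpb⟩ := List.mem_flatten.1 hp
  exact hW b (hφ b hb) p hpb

theorem prob {W : Finset (List (I × ℂ))} (hW : ∀ w ∈ W, S.adm w)
    (hkill : ∀ z, ∃ w ∈ W, S.ev w z ∈ S.K) (Q : ℕ) (x : Sp) :
    NA.EX W (fun _ => 1 / (W.card : ℝ)) Q (fun φ => S.bad φ x) ≤
      (1 - 1 / (W.card : ℝ)) ^ Q := by
  classical
  have hcard : (1 : ℝ) ≤ W.card := by
    obtain ⟨w, hw, -⟩ := hkill x
    exact_mod_cast Finset.card_pos.2 ⟨w, hw⟩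
  have hpos : (0 : ℝ) < 1 / (W.card : ℝ) := by positivity
  have hle1 : 1 / (W.card : ℝ) ≤ 1 := by
    rw [div_le_one (by linarith)]
    exact hcard
  induction Q generalizing x with
  | zero =>
    rw [NA.EX_zero, pow_zero]
    exact S.bad_le _ _
  | succ Q ih =>
    rw [NA.EX_succ]
    obtain ⟨w₀, hw₀, hK⟩ := hkill x
    have h1 : ∀ b ∈ W, 1 / (W.card : ℝ) * NA.EX W (fun _ => 1 / (W.card : ℝ)) Q
        (fun φ => S.bad (b :: φ) x) ≤
        1 / (W.card : ℝ) * (if b = w₀ then 0 else (1 - 1 / (W.card : ℝ)) ^ Q) := by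
      intro b hb
      apply mul_le_mul_of_nonneg_left _ hpos.le
      have h2 : (fun φ => S.bad (b :: φ) x) = fun φ => S.bad φ (S.ev b x) := by
        funext φ
        unfold bad
        rw [List.flatten_cons, S.ev_append]
      rw [h2]
      split_ifs with h3
      · rw [h3]
        have h4 : NA.EX W (fun _ => 1 / (W.card : ℝ)) Q (fun φ => S.bad φ (S.ev w₀ x)) ≤
            NA.EX W (fun _ => 1 / (W.card : ℝ)) Q (fun _ => 0) := by
          apply NA.EX_mono (fun _ _ => hpos.le)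
          intro l _ hl
          unfold bad
          rw [if_pos (K_ev (flatten_adm hW hl) hK)]
        rwa [NA.EX_fzero] at h4
      · exact ih _
    refine (Finset.sum_le_sum h1).trans ?_
    rw [← Finset.mul_sum]
    have h5 : ∑ b ∈ W, (if b = w₀ then (0 : ℝ) else (1 - 1 / (W.card : ℝ)) ^ Q) =
        (W.card - 1) * (1 - 1 / (W.card : ℝ)) ^ Q := by
      have h6 : ∀ b ∈ W, (if b = w₀ then (0 : ℝ) else (1 - 1 / (W.card : ℝ)) ^ Q) =
          (1 - 1 / (W.card : ℝ)) ^ Q - (if b = w₀ then (1 - 1 / (W.card : ℝ)) ^ Q else 0) := by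
        intro b _
        split_ifs <;> ring
      rw [Finset.sum_congr rfl h6, Finset.sum_sub_distrib, Finset.sum_const, nsmul_eq_mul,
        Finset.sum_ite_eq', if_pos hw₀]
      ring
    rw [h5, pow_succ]
    apply le_of_eq
    field_simp

/-- Two sequences of words which kill all starts depending on the other one. -/
theorem choice {W : Finset (List (I × ℂ))} (hne : W.Nonempty) {Q : ℕ} {θ : ℝ}
    (hθ : ∀ x : Sp, NA.EX W (fun _ => 1 / (W.card : ℝ)) Q (fun φ => S.bad φ x) ≤ θ)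
    (X Y : Finset (List (List (I × ℂ)) → Sp)) (hXY : ((X.card : ℝ) + Y.card) * θ < 1) :
    ∃ φ ψ : List (List (I × ℂ)), φ.length = Q ∧ ψ.length = Q ∧ (∀ b ∈ φ, b ∈ W) ∧
      (∀ b ∈ ψ, b ∈ W) ∧ (∀ x ∈ X, S.ev φ.flatten (x ψ) ∈ S.K) ∧
      (∀ y ∈ Y, S.ev ψ.flatten (y φ) ∈ S.K) := by
  have hcard : (0 : ℝ) < W.card := by exact_mod_cast Finset.card_pos.2 hne
  have hw : ∀ b ∈ W, 0 ≤ (fun _ : List (I × ℂ) => 1 / (W.card : ℝ)) b := fun _ _ => by positivity
  have hs : ∑ b ∈ W, (fun _ : List (I × ℂ) => 1 / (W.card : ℝ)) b = 1 := by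
    simp only [Finset.sum_const, nsmul_eq_mul]
    field_simp
  set w : List (I × ℂ) → ℝ := fun _ => 1 / (W.card : ℝ) with hwdef
  set V : List (List (I × ℂ)) → List (List (I × ℂ)) → ℝ := fun φ ψ =>
    (∑ x ∈ X, S.bad φ (x ψ)) + ∑ y ∈ Y, S.bad ψ (y φ) with hV
  have h1 : NA.EX W w Q (fun φ => NA.EX W w Q (fun ψ => V φ ψ)) < 1 := by
    have h2 : NA.EX W w Q (fun φ => NA.EX W w Q (fun ψ => V φ ψ)) =
        NA.EX W w Q (fun φ => NA.EX W w Q (fun ψ => ∑ x ∈ X, S.bad φ (x ψ))) +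
        NA.EX W w Q (fun φ => NA.EX W w Q (fun ψ => ∑ y ∈ Y, S.bad ψ (y φ))) := by
      rw [← NA.EX_add]
      congr 1
      funext φ
      rw [← NA.EX_add]
    have h3 : NA.EX W w Q (fun φ => NA.EX W w Q (fun ψ => ∑ x ∈ X, S.bad φ (x ψ))) ≤
        X.card * θ := by
      rw [NA.EX_swap]
      have h4 : ∀ ψ, NA.EX W w Q (fun φ => ∑ x ∈ X, S.bad φ (x ψ)) ≤ X.card * θ := by
        intro ψ
        rw [NA.EX_sum, ← nsmul_eq_mul]
        apply Finset.sum_le_card_nsmul
        intro x _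
        exact hθ (x ψ)
      calc _ ≤ NA.EX W w Q (fun _ => X.card * θ) := NA.EX_mono hw (fun ψ _ _ => h4 ψ)
        _ = X.card * θ := NA.EX_const hs _
    have h5 : NA.EX W w Q (fun φ => NA.EX W w Q (fun ψ => ∑ y ∈ Y, S.bad ψ (y φ))) ≤
        Y.card * θ := by
      have h4 : ∀ φ, NA.EX W w Q (fun ψ => ∑ y ∈ Y, S.bad ψ (y φ)) ≤ Y.card * θ := by
        intro φ
        rw [NA.EX_sum, ← nsmul_eq_mul]
        apply Finset.sum_le_card_nsmul
        intro y _
        exact hθ (y φ)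
      calc _ ≤ NA.EX W w Q (fun _ => Y.card * θ) := NA.EX_mono hw (fun φ _ _ => h4 φ)
        _ = Y.card * θ := NA.EX_const hs _
    rw [h2]
    linarith
  obtain ⟨φ, hφ1, hφ2, hφ3⟩ := NA.EX_exists hw hs h1
  obtain ⟨ψ, hψ1, hψ2, hψ3⟩ := NA.EX_exists hw hs hφ3
  have hX : ∀ x ∈ X, 0 ≤ S.bad φ (x ψ) := fun _ _ => S.bad_nonneg _ _
  have hY : ∀ y ∈ Y, 0 ≤ S.bad ψ (y φ) := fun _ _ => S.bad_nonneg _ _
  have hX' := Finset.sum_nonneg hX
  have hY' := Finset.sum_nonneg hY
  simp only [hV] at hψ3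
  refine ⟨φ, ψ, hφ1, hψ1, hφ2, hψ2, fun x hx => of_bad ?_, fun y hy => of_bad ?_⟩
  · have := Finset.single_le_sum hX hx
    linarith
  · have := Finset.single_le_sum hY hy
    linarith

/-- local injectivity of the map of a word -/
theorem inj_ev {w : List (I × ℂ)} {z : Sp} (h : ∀ t < w.length, S.ev (w.take t) z ∉ S.C) :
    ∃ U ∈ 𝓝 z, InjOn (S.ev w) U := by
  induction w generalizing z with
  | nil => exact ⟨univ, univ_mem, fun x _ y _ h => h⟩
  | cons p w ih =>
    have h0 := h 0 (by simp)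
    obtain ⟨U, hU, hUi⟩ := S.inj p.1 z h0
    have h1 : ∀ t < w.length, S.ev (w.take t) (tau p.2 (S.F p.1 z)) ∉ S.C := by
      intro t ht
      have := h (t + 1) (by simpa using ht)
      rwa [List.take_succ_cons] at this
    obtain ⟨V, hV, hVi⟩ := ih h1
    have hc : Continuous fun x => tau p.2 (S.F p.1 x) :=
      ((tau_hol p.2).comp (S.hol p.1)).continuous
    refine ⟨U ∩ (fun x => tau p.2 (S.F p.1 x)) ⁻¹' V, inter_mem hU (hc.continuousAt hV), ?_⟩
    rintro x ⟨hx1, hx2⟩ y ⟨hy1, hy2⟩ hxy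
    have h2 := hVi hx2 hy2 hxy
    exact hUi hx1 hy1 (tau_inj _ h2)

/-- the margin for the trap -/
theorem margin_D {w : List (I × ℂ)} (hw : S.adm w) (hne : w ≠ []) :
    closure (S.ev w '' S.D) ⊆ S.D := by
  obtain ⟨w', p, rfl⟩ : ∃ w' p, w = w' ++ [p] := ⟨w.dropLast, w.getLast hne,
    (List.dropLast_append_getLast hne).symm⟩
  have hw' : S.adm w' := fun q hq => hw q (List.mem_append_left _ hq)
  have hp : ‖p.2‖ < S.η := hw p (by simp)
  intro x hx
  induction x using OnePoint.rec with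
  | infty => exact S.Dinf
  | coe u =>
    have hopen : IsOpen ((fun v : ℂ => (v : Sp)) '' ball u (S.η - ‖p.2‖)) :=
      OnePoint.isOpenEmbedding_coe.isOpenMap _ isOpen_ball
    obtain ⟨y, hy1, hy2⟩ := mem_closure_iff.1 hx _ hopen
      ⟨u, mem_ball_self (by linarith), rfl⟩
    obtain ⟨v, hv, rfl⟩ := hy1
    obtain ⟨z, hz, hzv⟩ := hy2
    have h1 : S.ev (w' ++ [p]) z = tau p.2 (S.F p.1 (S.ev w' z)) := by
      rw [S.ev_append]; rfl
    rw [h1] at hzv
    have h2 : tau (u - v) (tau p.2 (S.F p.1 (S.ev w' z))) = (u : Sp) := by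
      rw [hzv, tau_coe, add_sub_cancel]
    rw [← h2, tau_tau]
    apply S.DD p.1 _ _ (D_ev hw' hz)
    rw [mem_ball, dist_eq_norm, norm_sub_rev] at hv
    exact (norm_add_le _ _).trans_lt (by linarith)

theorem margin_B {w : List (I × ℂ)} (hw : S.adm w) (hne : w ≠ []) :
    closure (S.ev w '' interior S.B) ⊆ interior S.B := by
  obtain ⟨p, w', rfl⟩ : ∃ p w', w = p :: w' := List.exists_cons_of_ne_nil hne
  have hB : ∀ z ∈ S.B, S.ev (p :: w') z ∈ interior S.B := by
    intro z hz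
    have h1 := S.B_step hz (hw p List.mem_cons_self) (i := p.1)
    have hw' : S.adm w' := fun q hq => hw q (List.mem_cons_of_mem _ hq)
    show S.ev w' (tau p.2 (S.F p.1 z)) ∈ interior S.B
    clear hw hne
    generalize tau p.2 (S.F p.1 z) = y at h1
    induction w' generalizing y with
    | nil => exact h1
    | cons q w' ih =>
      exact ih (fun r hr => hw' r (List.mem_cons_of_mem _ hr)) _
        (S.B_step (interior_subset h1) (hw' q List.mem_cons_self))
  have hc : IsClosed (S.ev (p :: w') '' S.B) :=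
    (S.B_closed.isCompact.image (S.ev_hol _).continuous).isClosed
  have h1 : closure (S.ev (p :: w') '' interior S.B) ⊆ S.ev (p :: w') '' S.B :=
    closure_minimal (image_mono interior_subset) hc
  refine h1.trans ?_
  rintro _ ⟨z, hz, rfl⟩
  exact hB z hz

theorem att_K {w : List (I × ℂ)} (hw : S.adm w) (hne : w ≠ []) {z : Sp} (hz : z ∈ S.K) :
    AttT (S.ev w) z := by
  rcases hz with h | h
  · exact att_sphere (S.ev_hol w) S.Dopen (margin_D hw hne) S.Dcomp h
  · refine att_sphere (S.ev_hol w) isOpen_interior (margin_B hw hne) ⟨∞, ?_⟩ h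
    refine mem_interior.2 ⟨S.D, ?_, S.Dopen, S.Dinf⟩
    intro y hy hyB
    exact (interior_subset hyB) [] (by intro p hp; simp at hp) hy

/-- all points where the map is not locally injective are attracted -/
def HypT (f : Sp → Sp) : Prop :=
  ∀ c : Sp, (¬ ∃ U ∈ 𝓝 c, InjOn f U) → AttT f c

theorem exists_Q (C x : ℝ) (hx0 : 0 < x) (hx1 : x < 1) :
    ∃ Q₀ : ℕ, ∀ Q ≥ Q₀, C * (Q + 1) * x ^ Q < 1 := by
  have h1 := tendsto_self_mul_const_pow_of_abs_lt_one (r := x) (by rwa [abs_of_pos hx0])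
  have h2 := tendsto_pow_atTop_nhds_zero_of_lt_one hx0.le hx1
  have h3 : Tendsto (fun Q : ℕ => C * ((Q : ℝ) * x ^ Q) + C * x ^ Q) atTop (𝓝 (C * 0 + C * 0)) :=
    (h1.const_mul C).add (h2.const_mul C)
  rw [mul_zero, add_zero] at h3
  obtain ⟨Q₀, hQ⟩ := eventually_atTop.1 (h3.eventually (gt_mem_nhds zero_lt_one))
  refine ⟨Q₀, fun Q hQQ => ?_⟩
  have := hQ Q hQQ
  calc C * (Q + 1) * x ^ Q = C * ((Q : ℝ) * x ^ Q) + C * x ^ Q := by ring
    _ < 1 := this

variable (S)

/-- The abstract theorem. -/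
theorem main : ∃ n₀ : ℕ, ∀ n ≥ n₀, ∃ w, S.adm w ∧ S.len w = n ∧ HypT (S.ev w) := by
  classical
  obtain ⟨L, W, hL, hW, hkill⟩ := S.finite_words
  have hWa : ∀ w ∈ W, S.adm w := fun w hw => (hW w hw).1
  have hne : W.Nonempty := by
    obtain ⟨w, hw, -⟩ := hkill ∞
    exact ⟨w, hw⟩
  have hcard : (1 : ℝ) ≤ W.card := by exact_mod_cast Finset.card_pos.2 hne
  set x : ℝ := 1 - 1 / (2 * (W.card : ℝ)) with hx
  have hx0 : 0 < x := by
    rw [hx]
    have : 1 / (2 * (W.card : ℝ)) ≤ 1 / 2 := one_div_le_one_div_of_le (by norm_num) (by linarith)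
    linarith
  have hx1 : x < 1 := by
    rw [hx]
    have : 0 < 1 / (2 * (W.card : ℝ)) := by positivity
    linarith
  have hθ0 : 0 ≤ 1 - 1 / (W.card : ℝ) := by
    have : 1 / (W.card : ℝ) ≤ 1 := by rw [div_le_one (by linarith)]; exact hcard
    linarith
  have hθx : 1 - 1 / (W.card : ℝ) ≤ x := by
    rw [hx]
    have : 1 / (2 * (W.card : ℝ)) ≤ 1 / (W.card : ℝ) :=
      one_div_le_one_div_of_le (by linarith) (by linarith)
    linarith
  obtain ⟨Q₀, hQ₀⟩ := exists_Q ((2 * L + S.n₁) * S.C.card) x hx0 hx1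
  refine ⟨S.n₁ + 2 * L * (Q₀ + 1), fun n hn => ?_⟩
  have h2L : 0 < 2 * L := by omega
  obtain ⟨Q, hQd⟩ : ∃ Q, Q = (n - S.n₁) / (2 * L) := ⟨_, rfl⟩
  obtain ⟨r, hrd⟩ : ∃ r, r = S.n₁ + (n - S.n₁) % (2 * L) := ⟨_, rfl⟩
  have hr : r < S.n₁ + 2 * L := by
    have := Nat.mod_lt (n - S.n₁) h2L
    omega
  have hnQ : n = L * Q + (L * Q + r) := by
    have h1 := Nat.div_add_mod (n - S.n₁) (2 * L)
    rw [← hQd] at h1
    have h2 : 2 * L * Q = L * Q + L * Q := by ring
    omega
  have hQQ : Q₀ + 1 ≤ Q := by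
    rw [hQd, Nat.le_div_iff_mul_le h2L]
    have : (Q₀ + 1) * (2 * L) = 2 * L * (Q₀ + 1) := by ring
    omega
  obtain ⟨ρ, hρ1, hρ2⟩ := S.exists_word (n := r) (by omega)
  have hρl : ρ.length ≤ r := hρ2 ▸ S.length_le ρ
  -- the finite sets of starts
  set X₁ : Finset (List (List (I × ℂ)) → Sp) := (Finset.range (L * Q) ×ˢ S.C).image
    (fun p ψ => S.ev ρ (S.ev (ψ.flatten.drop p.1) p.2)) with hX₁
  set X₂ : Finset (List (List (I × ℂ)) → Sp) := (Finset.range r ×ˢ S.C).image
    (fun p _ => S.ev (ρ.drop p.1) p.2) with hX₂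
  set Y : Finset (List (List (I × ℂ)) → Sp) := (Finset.range (L * Q) ×ˢ S.C).image
    (fun p φ => S.ev (φ.flatten.drop p.1) p.2) with hY
  have cX₁ : X₁.card ≤ L * Q * S.C.card := by
    refine Finset.card_image_le.trans ?_
    rw [Finset.card_product, Finset.card_range]
  have cX₂ : X₂.card ≤ r * S.C.card := by
    refine Finset.card_image_le.trans ?_
    rw [Finset.card_product, Finset.card_range]
  have cY : Y.card ≤ L * Q * S.C.card := by
    refine Finset.card_image_le.trans ?_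
    rw [Finset.card_product, Finset.card_range]
  have cX : (X₁ ∪ X₂).card ≤ L * Q * S.C.card + r * S.C.card :=
    (Finset.card_union_le X₁ X₂).trans (by omega)
  have hcount : (((X₁ ∪ X₂).card : ℝ) + Y.card) * (1 - 1 / (W.card : ℝ)) ^ Q < 1 := by
    have h1 : (X₁ ∪ X₂).card + Y.card ≤ (2 * L + S.n₁) * S.C.card * (Q + 1) := by
      have h2 : L * Q + r + L * Q ≤ (2 * L + S.n₁) * (Q + 1) := by
        have h3 : (2 * L + S.n₁) * (Q + 1) = 2 * (L * Q) + 2 * L + S.n₁ * Q + S.n₁ := by ring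
        omega
      calc (X₁ ∪ X₂).card + Y.card ≤ (L * Q + r + L * Q) * S.C.card := by
            have h4 : (L * Q + r + L * Q) * S.C.card =
              L * Q * S.C.card + r * S.C.card + L * Q * S.C.card := by ring
            omega
        _ ≤ (2 * L + S.n₁) * (Q + 1) * S.C.card := Nat.mul_le_mul_right _ h2
        _ = _ := by ring
    have h2 : ((X₁ ∪ X₂).card : ℝ) + Y.card ≤ (2 * L + S.n₁) * S.C.card * (Q + 1) := by
      exact_mod_cast h1
    have h3 : (1 - 1 / (W.card : ℝ)) ^ Q ≤ x ^ Q := pow_le_pow_left₀ hθ0 hθx Q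
    calc (((X₁ ∪ X₂).card : ℝ) + Y.card) * (1 - 1 / (W.card : ℝ)) ^ Q
        ≤ ((2 * L + S.n₁) * S.C.card * (Q + 1)) * x ^ Q :=
          mul_le_mul h2 h3 (pow_nonneg hθ0 Q) (le_trans (add_nonneg (Nat.cast_nonneg _) (Nat.cast_nonneg _)) h2)
      _ < 1 := hQ₀ Q (by omega)
  obtain ⟨φ, ψ, hφQ, hψQ, hφW, hψW, hgX, hgY⟩ := choice (S := S) hne (prob hWa hkill Q)
    (X₁ ∪ X₂) Y hcount
  have hlen : ∀ χ : List (List (I × ℂ)), (∀ b ∈ χ, b ∈ W) → S.len χ.flatten = L * χ.length := by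
    intro χ hχ
    induction χ with
    | nil => simp [len]
    | cons b χ ih =>
      rw [List.flatten_cons, S.len_append, ih (fun c hc => hχ c (List.mem_cons_of_mem _ hc)),
        (hW b (hχ b List.mem_cons_self)).2, List.length_cons]
      ring
  have hφl : φ.flatten.length ≤ L * Q := by
    have := S.length_le φ.flatten
    rwa [hlen φ hφW, hφQ] at this
  have hψl : ψ.flatten.length ≤ L * Q := by
    have := S.length_le ψ.flatten
    rwa [hlen ψ hψW, hψQ] at this
  have hφa : S.adm φ.flatten := flatten_adm hWa hφW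
  have hψa : S.adm ψ.flatten := flatten_adm hWa hψW
  set w : List (I × ℂ) := φ.flatten ++ (ψ.flatten ++ ρ) with hw
  have hwa : S.adm w := hφa.append (hψa.append hρ1)
  have hwl : S.len w = n := by
    rw [hw, S.len_append, S.len_append, hlen φ hφW, hlen ψ hψW, hφQ, hψQ, hρ2, ← hnQ]
  have hwne : w ≠ [] := by
    intro h0
    rw [h0] at hwl
    have h1 : S.len [] = 0 := rfl
    have h2 : 1 ≤ L * Q := Nat.mul_pos hL (by omega)
    omega
  refine ⟨w, hwa, hwl, fun c hc => ?_⟩
  have hev : ∀ z, S.ev w z = S.ev ρ (S.ev ψ.flatten (S.ev φ.flatten z)) := by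
    intro z
    rw [hw, S.ev_append, S.ev_append]
  have hcrit : ∃ t < w.length, S.ev (w.take t) c ∈ S.C := by
    by_contra hcon
    push Not at hcon
    exact hc (inj_ev hcon)
  obtain ⟨t, ht, hu⟩ := hcrit
  set u : Sp := S.ev (w.take t) c with hudef
  have hGc : S.ev w c = S.ev (w.drop t) u := by
    have := S.ev_append (w.take t) (w.drop t) c
    rwa [List.take_append_drop] at this
  have hkey : (S.ev w)^[2] c ∈ S.K := by
    show S.ev w (S.ev w c) ∈ S.K
    rcases lt_or_ge t φ.flatten.length with h1 | h1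
    · apply K_ev hwa
      have h2 : w.drop t = φ.flatten.drop t ++ (ψ.flatten ++ ρ) := by
        rw [hw, List.drop_append_of_le_length h1.le]
      rw [hGc, h2, S.ev_append, S.ev_append]
      apply K_ev hρ1
      refine hgY (fun φ => S.ev (φ.flatten.drop t) u) ?_
      exact Finset.mem_image.2 ⟨(t, u), Finset.mem_product.2 ⟨Finset.mem_range.2 (by
        show t < L * Q; omega), hu⟩, rfl⟩
    · obtain ⟨t', rfl⟩ : ∃ t', t = φ.flatten.length + t' := ⟨t - φ.flatten.length, by omega⟩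
      rw [hev]
      apply K_ev hρ1
      apply K_ev hψa
      have h2 : w.drop (φ.flatten.length + t') = (ψ.flatten ++ ρ).drop t' := by
        rw [hw, List.drop_append, List.drop_eq_nil_of_le (by omega), List.nil_append]
        congr 1
        omega
      rw [hGc, h2]
      rcases lt_or_ge t' ψ.flatten.length with h3 | h3
      · rw [List.drop_append_of_le_length h3.le, S.ev_append]
        refine hgX (fun ψ => S.ev ρ (S.ev (ψ.flatten.drop t') u)) ?_
        apply Finset.mem_union_left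
        exact Finset.mem_image.2 ⟨(t', u), Finset.mem_product.2 ⟨Finset.mem_range.2 (by
          show t' < L * Q; omega), hu⟩, rfl⟩
      · obtain ⟨t'', rfl⟩ : ∃ t'', t' = ψ.flatten.length + t'' := ⟨t' - ψ.flatten.length, by omega⟩
        have h4 : (ψ.flatten ++ ρ).drop (ψ.flatten.length + t'') = ρ.drop t'' := by
          rw [List.drop_append, List.drop_eq_nil_of_le (by omega), List.nil_append]
          congr 1
          omega
        rw [h4]
        refine hgX (fun _ => S.ev (ρ.drop t'') u) ?_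
        apply Finset.mem_union_right
        have h5 : w.length = φ.flatten.length + (ψ.flatten.length + ρ.length) := by
          rw [hw, List.length_append, List.length_append]
        exact Finset.mem_image.2 ⟨(t'', u), Finset.mem_product.2 ⟨Finset.mem_range.2 (by
          show t'' < r; omega), hu⟩, rfl⟩
  exact AttT.back_iter (S.ev_hol w).continuous 2 (att_K hwa hwne hkey)

end Sys

end Pool.Agent.Y334.RM
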