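import Mathlib
import Pool.Agent.Y334.RM.Crit
import Pool.Agent.Y334.RM.AT

/-! Pseudo-orbits of a rational map: the reachable sets. -/

set_option autoImplicit false

open Set Filter Topology Metric
open scoped OnePoint
open Pool.Agent.Helper114.Herman

namespace Pool.Agent.Y334.RM

/-- the composition of the maps `M ∘ g`, for the matrices `M` in the list -/
noncomputable def evk (g : Sp → Sp) : List Mx → Sp → Sp
  | [], x => x
  | M :: l, x => evk g l (M.act (g x))

theorem evk_append (g : Sp → Sp) (l₁ l₂ : List Mx) (x : Sp) :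
    evk g (l₁ ++ l₂) x = evk g l₂ (evk g l₁ x) := by
  induction l₁ generalizing x with
  | nil => rfl
  | cons M l ih => exact ih _

/-- all matrices near the identity -/
def adk (δ : ℝ) (l : List Mx) : Prop := ∀ M ∈ l, M.near δ

theorem adk.append {δ : ℝ} {l₁ l₂ : List Mx} (h₁ : adk δ l₁) (h₂ : adk δ l₂) :
    adk δ (l₁ ++ l₂) := by
  intro M hM
  rcases List.mem_append.1 hM with h | h
  · exact h₁ M h
  · exact h₂ M h

theorem evk_hol {g : Sp → Sp} (hg : HolMap g) {δ : ℝ} (hδ : δ ≤ 1 / 4) {l : List Mx}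
    (hl : adk δ l) : HolMap (evk g l) := by
  induction l with
  | nil => exact HolMap.id
  | cons M l ih =>
    exact (ih fun N hN => hl N (List.mem_cons_of_mem _ hN)).comp
      ((Mx.hol ((hl M List.mem_cons_self).det_ne hδ)).comp hg)

theorem LI.comp {f g : Sp → Sp} {z : Sp} (hg : LI g z) (hf : LI f (g z)) (hc : Continuous g) :
    LI (fun x => f (g x)) z := by
  obtain ⟨U, hU, hUi⟩ := hg
  obtain ⟨V, hV, hVi⟩ := hf
  refine ⟨U ∩ g ⁻¹' V, inter_mem hU (hc.continuousAt hV), ?_⟩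
  rintro x ⟨hx1, hx2⟩ y ⟨hy1, hy2⟩ hxy
  exact hUi hx1 hy1 (hVi hx2 hy2 hxy)

theorem Mx.inj {M : Mx} (hM : M.det ≠ 0) : Function.Injective M.act := by
  have h1 : ∀ x, (⟨M.e, -M.b, -M.c, M.a⟩ : Mx).act (M.act x) = x := by
    intro x
    rw [← Mx.act_mul _ hM]
    obtain ⟨u, v, h, rfl⟩ := exists_pr x
    rw [Mx.act_pr _ h]
    have e1 : ((⟨M.e, -M.b, -M.c, M.a⟩ : Mx).mul M).a = M.det := by
      simp only [Mx.mul, Mx.det]; ring
    have e2 : ((⟨M.e, -M.b, -M.c, M.a⟩ : Mx).mul M).b = 0 := by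
      simp only [Mx.mul]; ring
    have e3 : ((⟨M.e, -M.b, -M.c, M.a⟩ : Mx).mul M).c = 0 := by
      simp only [Mx.mul]; ring
    have e4 : ((⟨M.e, -M.b, -M.c, M.a⟩ : Mx).mul M).e = M.det := by
      simp only [Mx.mul, Mx.det]; ring
    rw [e1, e2, e3, e4, zero_mul, zero_mul, add_zero, zero_add, pr_smul hM]
  intro x y h
  rw [← h1 x, ← h1 y, h]

/-- The composition is locally injective outside a finite set. -/
theorem evk_crit {g : Sp → Sp} (hg : Good g) {δ : ℝ} (hδ : δ ≤ 1 / 4) {l : List Mx}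
    (hl : adk δ l) : ∃ C : Finset Sp, ∀ z, z ∉ C → LI (evk g l) z := by
  classical
  induction l with
  | nil => exact ⟨∅, fun z _ => ⟨univ, univ_mem, fun x _ y _ h => h⟩⟩
  | cons M l ih =>
    obtain ⟨C, hC⟩ := ih fun N hN => hl N (List.mem_cons_of_mem _ hN)
    obtain ⟨C₀, hC₀⟩ := hg.crit
    have hM := (hl M List.mem_cons_self).det_ne hδ
    have hfin : {z | M.act (g z) ∈ C}.Finite := by
      have h1 : {z | M.act (g z) ∈ C} = ⋃ c ∈ C, {z | M.act (g z) = c} := by
        ext z; simp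
      rw [h1]
      apply Set.Finite.biUnion C.finite_toSet
      intro c _
      by_cases hc : ∃ y, M.act y = c
      · obtain ⟨y, hy⟩ := hc
        refine (hg.fib y).subset ?_
        intro z hz
        have hz' : M.act (g z) = c := hz
        exact Mx.inj hM (by rw [hz', hy])
      · convert Set.finite_empty
        ext z
        simp only [mem_ofPred_eq, mem_empty_iff_false, iff_false]
        exact fun h => hc ⟨_, h⟩
    refine ⟨C₀ ∪ hfin.toFinset, fun z hz => ?_⟩
    rw [Finset.mem_union, not_or] at hz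
    have h1 : LI (fun x => M.act (g x)) z := by
      obtain ⟨U, hU, hUi⟩ := hC₀ z hz.1
      exact ⟨U, hU, fun x hx y hy h => hUi hx hy (Mx.inj hM h)⟩
    have h2 : LI (evk g l) (M.act (g z)) := by
      apply hC
      intro h
      exact hz.2 (hfin.mem_toFinset.2 h)
    exact LI.comp (f := evk g l) (g := fun x => M.act (g x)) h1 h2
      ((Mx.hol hM).comp hg.hol).continuous

theorem not_li_evk {g : Sp → Sp} {M : Mx} {l : List Mx} {c : Sp} (hc : ¬ LI g c) :
    ¬ LI (evk g (M :: l)) c := by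
  rintro ⟨U, hU, hUi⟩
  apply hc
  refine ⟨U, hU, fun x hx y hy h => hUi hx hy ?_⟩
  show evk g l (M.act (g x)) = evk g l (M.act (g y))
  rw [h]

/-- the points reachable in exactly `k` steps -/
def Rk (g : Sp → Sp) (δ : ℝ) (k : ℕ) (x : Sp) : Set Sp :=
  {y | ∃ l : List Mx, l.length = k ∧ adk δ l ∧ evk g l x = y}

theorem Rk_open (g : Sp → Sp) {δ : ℝ} (hδ : δ ≤ 1 / 4) {k : ℕ} (hk : 1 ≤ k) (x : Sp) :
    IsOpen (Rk g δ k x) := by
  rw [isOpen_iff_mem_nhds]
  rintro y ⟨l, h1, h2, h3⟩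
  have hne : l ≠ [] := by rintro rfl; simp at h1; omega
  obtain ⟨l', M, rfl⟩ : ∃ l' M, l = l' ++ [M] := ⟨l.dropLast, l.getLast hne,
    (List.dropLast_append_getLast hne).symm⟩
  have h4 : y = M.act (g (evk g l' x)) := by
    rw [← h3, evk_append]; rfl
  rw [h4]
  filter_upwards [orbit_nhds hδ (h2 M (by simp)) (g (evk g l' x))] with y' hy'
  obtain ⟨M', hM', rfl⟩ := hy'
  refine ⟨l' ++ [M'], by simpa using h1, ?_, ?_⟩
  · intro N hN
    rcases List.mem_append.1 hN with h | h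
    · exact h2 N (List.mem_append_left _ h)
    · rw [List.mem_singleton] at h
      rw [h]; exact hM'
  · rw [evk_append]; rfl

theorem Rk_trans {g : Sp → Sp} {δ : ℝ} {k m : ℕ} {x y z : Sp} (h₁ : y ∈ Rk g δ k x)
    (h₂ : z ∈ Rk g δ m y) : z ∈ Rk g δ (k + m) x := by
  obtain ⟨l₁, a1, a2, a3⟩ := h₁
  obtain ⟨l₂, b1, b2, b3⟩ := h₂
  exact ⟨l₁ ++ l₂, by simp [a1, b1], a2.append b2, by rw [evk_append, a3, b3]⟩

/-- the reachable points -/
def Reach (g : Sp → Sp) (δ : ℝ) (x : Sp) : Set Sp := {y | ∃ k, 1 ≤ k ∧ y ∈ Rk g δ k x}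

theorem Reach_open (g : Sp → Sp) {δ : ℝ} (hδ : δ ≤ 1 / 4) (x : Sp) : IsOpen (Reach g δ x) := by
  have h1 : Reach g δ x = ⋃ (k : ℕ) (_ : 1 ≤ k), Rk g δ k x := by
    ext y; simp [Reach]
  rw [h1]
  exact isOpen_iUnion fun k => isOpen_iUnion fun hk => Rk_open g hδ hk x

theorem Reach_step {g : Sp → Sp} {δ : ℝ} {x y : Sp} (h : y ∈ Reach g δ x) {M : Mx}
    (hM : M.near δ) : M.act (g y) ∈ Reach g δ x := by
  obtain ⟨k, hk, h⟩ := h
  refine ⟨k + 1, by omega, Rk_trans h ⟨[M], rfl, ?_, rfl⟩⟩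
  intro N hN
  rw [List.mem_singleton] at hN
  rw [hN]; exact hM

/-- A proper reachable set is not dense. -/
theorem not_dense {g : Sp → Sp} (hg : Good g) {δ : ℝ} (hδ0 : 0 < δ) {x : Sp}
    (hx : Reach g δ x ≠ univ) : ¬ Dense (Reach g δ x) := by
  intro hd
  apply hx
  apply eq_univ_of_forall
  intro y
  have h1 : Dense (g '' Reach g δ x) := hg.surj.denseRange.dense_image hg.hol.continuous hd
  obtain ⟨b, z, rfl⟩ := exists_kap y
  have h2 : kap b '' ball z δ ∈ 𝓝 (kap b z) := kap_ball hδ0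
  obtain ⟨v, hv1, hv2⟩ := (mem_closure_iff_nhds.1 (h1 (kap b z))) _ h2
  obtain ⟨z', hz', rfl⟩ := hv1
  obtain ⟨u, hu, hgu⟩ := hv2
  have h3 : (un b (z - z')).act (g u) = kap b z := by
    rw [hgu, un_act, add_sub_cancel]
  rw [← h3]
  apply Reach_step hu
  apply un_near
  rw [mem_ball, dist_eq_norm, norm_sub_rev] at hz'
  exact hz'

/-- If everything is reachable from everywhere then a point is on loops of all large lengths. -/
theorem loops {g : Sp → Sp} {δ : ℝ} (hδ0 : 0 < δ) (hδ : δ ≤ 1 / 4)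
    (hall : ∀ x, Reach g δ x = univ) (c : Sp) : ∃ N₀ : ℕ, ∀ n ≥ N₀, c ∈ Rk g δ n c := by
  let A : AddSubmonoid ℕ :=
    { carrier := {k | c ∈ Rk g δ k c}
      zero_mem' := ⟨[], rfl, by intro M hM; simp at hM, rfl⟩
      add_mem' := fun {a b} ha hb => Rk_trans ha hb }
  set s : Set ℕ := {k | c ∈ Rk g δ k c} with hs
  obtain ⟨n, hn⟩ := Nat.exists_mem_closure_of_ge s
  have hcl : AddSubmonoid.closure s ≤ A := AddSubmonoid.closure_le.2 (fun k hk => hk)
  have hp : Nat.setGcd s = 1 := by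
    by_contra hne
    set p := Nat.setGcd s with hpdef
    set R₀ : Set Sp := {y | ∃ k, 1 ≤ k ∧ p ∣ k ∧ y ∈ Rk g δ k c} with hR₀
    set R₁ : Set Sp := {y | ∃ k, 1 ≤ k ∧ ¬ p ∣ k ∧ y ∈ Rk g δ k c} with hR₁
    have o0 : IsOpen R₀ := by
      have h1 : R₀ = ⋃ (k : ℕ) (_ : 1 ≤ k) (_ : p ∣ k), Rk g δ k c := by
        ext y
        simp only [hR₀, mem_ofPred_eq, mem_iUnion, exists_prop]
      rw [h1]
      exact isOpen_iUnion fun k => isOpen_iUnion fun hk => isOpen_iUnion fun _ => Rk_open g hδ hk c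
    have o1 : IsOpen R₁ := by
      have h1 : R₁ = ⋃ (k : ℕ) (_ : 1 ≤ k) (_ : ¬ p ∣ k), Rk g δ k c := by
        ext y
        simp only [hR₁, mem_ofPred_eq, mem_iUnion, exists_prop]
      rw [h1]
      exact isOpen_iUnion fun k => isOpen_iUnion fun hk => isOpen_iUnion fun _ => Rk_open g hδ hk c
    have hcov : (univ : Set Sp) ⊆ R₀ ∪ R₁ := by
      intro y _
      have h1 : y ∈ Reach g δ c := by rw [hall]; trivial
      obtain ⟨k, hk, hy⟩ := h1
      by_cases hd : p ∣ k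
      · exact Or.inl ⟨k, hk, hd, hy⟩
      · exact Or.inr ⟨k, hk, hd, hy⟩
    have hne0 : (univ ∩ R₀).Nonempty := by
      have h1 : c ∈ Reach g δ c := by rw [hall]; trivial
      obtain ⟨k, hk, hy⟩ := h1
      exact ⟨c, trivial, k, hk, Nat.setGcd_dvd_of_mem hy, hy⟩
    have hne1 : (univ ∩ R₁).Nonempty := by
      refine ⟨Mx.one.act (g c), trivial, 1, le_rfl, ?_, [Mx.one], rfl, ?_, rfl⟩
      · intro h1
        exact hne (Nat.dvd_one.1 h1)
      · intro M hM
        rw [List.mem_singleton] at hM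
        rw [hM]
        exact Mx.near_one hδ0
    obtain ⟨w, -, ⟨k, hk1, hk2, hk3⟩, ⟨k', hk1', hk2', hk3'⟩⟩ :=
      isPreconnected_univ R₀ R₁ o0 o1 hcov hne0 hne1
    have h1 : c ∈ Reach g δ w := by rw [hall]; trivial
    obtain ⟨m, hm, hc⟩ := h1
    have h2 : p ∣ k + m := Nat.setGcd_dvd_of_mem (s := s) (Rk_trans hk3 hc)
    have h3 : p ∣ k' + m := Nat.setGcd_dvd_of_mem (s := s) (Rk_trans hk3' hc)
    have h4 : p ∣ m := (Nat.dvd_add_right hk2).1 h2
    exact hk2' ((Nat.dvd_add_left h4).1 h3)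
  refine ⟨n, fun m hm => ?_⟩
  exact hcl (hn m hm (by rw [hp]; exact one_dvd m))

theorem hypT_conj {f F : Sp → Sp} (H : Sp ≃ₜ Sp) (hfF : ∀ x, H (f x) = F (H x))
    (hF : Sys.HypT F) : Sys.HypT f := by
  have hit : ∀ (k : ℕ) (x : Sp), H (f^[k] x) = F^[k] (H x) := by
    intro k
    induction k with
    | zero => intro x; rfl
    | succ k ih =>
      intro x
      rw [Function.iterate_succ_apply', Function.iterate_succ_apply', hfF, ih]
  intro c hc
  have h1 : ¬ ∃ U ∈ 𝓝 (H c), InjOn F U := by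
    rintro ⟨U, hU, hUi⟩
    apply hc
    refine ⟨H ⁻¹' U, H.continuous.continuousAt hU, fun x hx y hy hxy => ?_⟩
    apply H.injective
    apply hUi hx hy
    rw [← hfF, ← hfF, hxy]
  obtain ⟨x, n, hn, hx, ⟨U, hU, hUx⟩, hcx⟩ := hF _ h1
  have key : ∀ y : Sp, Tendsto (fun k : ℕ => F^[n * k] (H y)) atTop (𝓝 x) →
      Tendsto (fun k : ℕ => f^[n * k] y) atTop (𝓝 (H.symm x)) := by
    intro y hy
    have h2 := (H.symm.continuous.tendsto x).comp hy
    refine h2.congr fun k => ?_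
    show H.symm (F^[n * k] (H y)) = _
    rw [← hit, H.symm_apply_apply]
  refine ⟨H.symm x, n, hn, ?_, ⟨H ⁻¹' U, ?_, fun y hy => key y (hUx _ hy)⟩, key c hcx⟩
  · apply H.injective
    rw [hit, H.apply_symm_apply, hx]
  · apply H.continuous.continuousAt
    rw [H.apply_symm_apply]
    exact hU

/-- From words to kicks. -/
theorem bridge {I : Type} (S : Sys I) (H : Sp ≃ₜ Sp) {g : Sp → Sp} {δ : ℝ}
    (hlet : ∀ (i : I) (β : ℂ), ‖β‖ < S.η → ∃ l : List Mx, l.length = S.ell i ∧ adk δ l ∧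
      ∀ x, H (evk g l x) = tau β (S.F i (H x))) :
    ∃ n₀ : ℕ, ∀ n ≥ n₀, ∃ l : List Mx, l.length = n ∧ adk δ l ∧ Sys.HypT (evk g l) := by
  have hw : ∀ w : List (I × ℂ), S.adm w → ∃ l : List Mx, l.length = S.len w ∧ adk δ l ∧
      ∀ x, H (evk g l x) = S.ev w (H x) := by
    intro w
    induction w with
    | nil => exact fun _ => ⟨[], rfl, by intro M hM; simp at hM, fun x => rfl⟩
    | cons p w ih =>
      intro hw
      obtain ⟨l₁, a1, a2, a3⟩ := hlet p.1 p.2 (hw p List.mem_cons_self)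
      obtain ⟨l₂, b1, b2, b3⟩ := ih fun q hq => hw q (List.mem_cons_of_mem _ hq)
      refine ⟨l₁ ++ l₂, ?_, a2.append b2, fun x => ?_⟩
      · rw [List.length_append, a1, b1]
        simp [Sys.len]
      · rw [evk_append, b3, a3]
        rfl
  obtain ⟨n₀, h⟩ := S.main
  refine ⟨n₀, fun n hn => ?_⟩
  obtain ⟨w, hw1, hw2, hw3⟩ := h n hn
  obtain ⟨l, h1, h2, h3⟩ := hw w hw1
  exact ⟨l, by rw [h1, hw2], h2, hypT_conj H h3 hw3⟩

/-- First case: some reachable set is proper. -/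
theorem case_one {g : Sp → Sp} (hg : Good g) {δ : ℝ} (hδ0 : 0 < δ) (hδ : δ ≤ 1 / 4) {x : Sp}
    (hx : Reach g δ x ≠ univ) :
    ∃ n₀ : ℕ, ∀ n ≥ n₀, ∃ l : List Mx, l.length = n ∧ adk δ l ∧ Sys.HypT (evk g l) := by
  classical
  have hnd := not_dense hg hδ0 hx
  set u₀ : Sp := Mx.one.act (g x) with hu₀
  have hu₀R : u₀ ∈ Reach g δ x := by
    refine ⟨1, le_rfl, [Mx.one], rfl, ?_, rfl⟩
    intro M hM
    rw [List.mem_singleton] at hM
    rw [hM]
    exact Mx.near_one hδ0
  obtain ⟨H, hH0, hH1, hH2, hH3⟩ := exists_conj u₀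
  obtain ⟨η, hη, hH4⟩ := hH3 δ hδ0
  obtain ⟨C, hC⟩ := hg.crit
  let S : Sys Unit :=
    { F := fun _ y => H (g (H.symm y))
      ell := fun _ => 1
      C := C.image H
      D := H.symm ⁻¹' Reach g δ x
      η := η
      n₁ := 0
      hol := fun _ => hH1.comp (hg.hol.comp hH2)
      ell1 := fun _ => le_rfl
      inj := by
        intro _ z hz
        have h1 : H.symm z ∉ C := by
          intro h
          apply hz
          rw [← H.apply_symm_apply z]
          exact Finset.mem_image_of_mem _ h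
        obtain ⟨U, hU, hUi⟩ := hC _ h1
        refine ⟨H.symm ⁻¹' U, H.symm.continuous.continuousAt hU, fun a ha b hb hab => ?_⟩
        exact H.symm.injective (hUi ha hb (H.injective hab))
      Dopen := (Reach_open g hδ x).preimage H.symm.continuous
      Dinf := by
        show H.symm ∞ ∈ Reach g δ x
        rw [← hH0, H.symm_apply_apply]
        exact hu₀R
      Dcomp := by
        have h1 : (closure (Reach g δ x))ᶜ.Nonempty := by
          rw [nonempty_compl]
          intro h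
          exact hnd (dense_iff_closure_eq.2 h)
        obtain ⟨y, hy⟩ := h1
        refine ⟨H y, mem_interior.2 ⟨H.symm ⁻¹' (closure (Reach g δ x))ᶜ, ?_, ?_, ?_⟩⟩
        · intro (a : Sp) (ha : ¬ (H.symm a ∈ closure (Reach g δ x))) (hb : H.symm a ∈ Reach g δ x)
          exact ha (subset_closure hb)
        · exact isClosed_closure.isOpen_compl.preimage H.symm.continuous
        · show H.symm (H y) ∈ (closure (Reach g δ x))ᶜ
          rw [H.symm_apply_apply]
          exact hy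
      η0 := hη
      DD := by
        intro _ z β hz hβ
        obtain ⟨M, hM, hM2⟩ := hH4 β hβ
        show H.symm (tau β (H (g (H.symm z)))) ∈ Reach g δ x
        rw [hM2]
        exact Reach_step hz hM
      lens := fun n _ => ⟨List.replicate n (), by simp⟩ }
  apply bridge S H
  intro _ β hβ
  obtain ⟨M, hM, hM2⟩ := hH4 β hβ
  refine ⟨[M], rfl, ?_, fun y => ?_⟩
  · intro N hN
    rw [List.mem_singleton] at hN
    rw [hN]; exact hM
  · show H (M.act (g y)) = tau β (H (g (H.symm (H y))))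
    rw [← hM2, H.apply_symm_apply, H.symm_apply_apply]

end Pool.Agent.Y334.RM
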