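import Mathlib
import Pool.Agent.Y334.RM.Reach

/-! Second case: everything is reachable. -/

set_option autoImplicit false

open Set Filter Topology Metric
open scoped OnePoint
open Pool.Agent.Helper114.Herman

namespace Pool.Agent.Y334.RM

/-- small changes of a matrix near the identity -/
theorem near_mul {δ : ℝ} {M : Mx} (hM : M.near δ) : ∃ r : ℝ, 0 < r ∧ ∀ E : Mx,
    E.near r → (E.mul M).near δ := by
  obtain ⟨h1, h2, h3, h4⟩ := hM
  set K : ℝ := ‖M.a‖ + ‖M.b‖ + ‖M.c‖ + ‖M.e‖ + 1 with hK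
  have p1 := norm_nonneg M.a
  have p2 := norm_nonneg M.b
  have p3 := norm_nonneg M.c
  have p4 := norm_nonneg M.e
  have hK0 : 0 < K := by rw [hK]; positivity
  set m : ℝ := min (min (δ - ‖M.a - 1‖) (δ - ‖M.b‖)) (min (δ - ‖M.c‖) (δ - ‖M.e - 1‖)) with hm
  have hm0 : 0 < m := by
    rw [hm]
    refine lt_min (lt_min ?_ ?_) (lt_min ?_ ?_) <;> linarith
  have m1 : m ≤ δ - ‖M.a - 1‖ := (min_le_left _ _).trans (min_le_left _ _)
  have m2 : m ≤ δ - ‖M.b‖ := (min_le_left _ _).trans (min_le_right _ _)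
  have m3 : m ≤ δ - ‖M.c‖ := (min_le_right _ _).trans (min_le_left _ _)
  have m4 : m ≤ δ - ‖M.e - 1‖ := (min_le_right _ _).trans (min_le_right _ _)
  refine ⟨m / K, by positivity, fun E hE => ?_⟩
  obtain ⟨e1, e2, e3, e4⟩ := hE
  have key : ∀ x y u v : ℂ, ‖x‖ < m / K → ‖y‖ < m / K → ‖u‖ + ‖v‖ + 1 ≤ K →
      ‖x * u + y * v‖ < m := by
    intro x y u v hx hy huv
    have hu := norm_nonneg u
    have hv := norm_nonneg v
    have hmK : 0 < m / K := by positivity
    calc ‖x * u + y * v‖ ≤ ‖x * u‖ + ‖y * v‖ := norm_add_le _ _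
      _ = ‖x‖ * ‖u‖ + ‖y‖ * ‖v‖ := by rw [norm_mul, norm_mul]
      _ ≤ m / K * ‖u‖ + m / K * ‖v‖ := by gcongr
      _ < m / K * (‖u‖ + ‖v‖ + 1) := by nlinarith
      _ ≤ m / K * K := by gcongr
      _ = m := by field_simp
  have ka := key (E.a - 1) E.b M.a M.c e1 e2 (by linarith)
  have kb := key (E.a - 1) E.b M.b M.e e1 e2 (by linarith)
  have kc := key E.c (E.e - 1) M.a M.c e3 e4 (by linarith)
  have ke := key E.c (E.e - 1) M.b M.e e3 e4 (by linarith)
  refine ⟨?_, ?_, ?_, ?_⟩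
  · show ‖E.a * M.a + E.b * M.c - 1‖ < δ
    have q : E.a * M.a + E.b * M.c - 1 = ((E.a - 1) * M.a + E.b * M.c) + (M.a - 1) := by ring
    rw [q]
    exact (norm_add_le _ _).trans_lt (by linarith)
  · show ‖E.a * M.b + E.b * M.e‖ < δ
    have q : E.a * M.b + E.b * M.e = ((E.a - 1) * M.b + E.b * M.e) + M.b := by ring
    rw [q]
    exact (norm_add_le _ _).trans_lt (by linarith)
  · show ‖E.c * M.a + E.e * M.c‖ < δ
    have q : E.c * M.a + E.e * M.c = (E.c * M.a + (E.e - 1) * M.c) + M.c := by ring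
    rw [q]
    exact (norm_add_le _ _).trans_lt (by linarith)
  · show ‖E.c * M.b + E.e * M.e - 1‖ < δ
    have q : E.c * M.b + E.e * M.e - 1 = (E.c * M.b + (E.e - 1) * M.e) + (M.e - 1) := by ring
    rw [q]
    exact (norm_add_le _ _).trans_lt (by linarith)

/-- A critical fixed point at infinity gives a trap. -/
theorem super {F : Sp → Sp} (hF : HolMap F) (h0 : F ∞ = ∞) (hc : ¬ LI F ∞) :
    ∃ R₀ : ℝ, 0 < R₀ ∧ ∀ R ≥ R₀, ∀ z ∈ ((fun u : ℂ => (u : Sp)) '' closedBall 0 R)ᶜ, ∀ β : ℂ,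
      ‖β‖ < 1 → tau β (F z) ∈ ((fun u : ℂ => (u : Sp)) '' closedBall 0 R)ᶜ := by
  have k0 : kap true 0 = ∞ := by
    rw [kap_true, ← pr_one, sinv_pr (Or.inr one_ne_zero), pr_zero]
  have hs : HolAt (fun w => sinv (F (kap true w))) 0 := by
    have h1 : HolAt (fun w => F (kap true w)) 0 := hF _ _ (holAt_kap true 0)
    exact h1.sinv
  have hs0 : sinv (F (kap true 0)) ≠ ∞ := by
    have h1 : sinv (F (kap true 0)) = ((0 : ℂ) : Sp) := by
      rw [k0, h0, ← k0, kap_true, sinv_sinv]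
    rw [h1]
    exact OnePoint.coe_ne_infty _
  obtain ⟨ψ, hψ, hψ2⟩ := hs.exists_coe hs0
  have hF2 : ∀ᶠ w in 𝓝 (0 : ℂ), F (kap true w) = kap true (ψ w) := by
    filter_upwards [hψ2] with w hw
    rw [kap_true (ψ w), ← hw, sinv_sinv]
  have hψ0 : ψ 0 = 0 := by
    have h1 := hF2.self_of_nhds
    rw [k0, h0, ← k0] at h1
    exact ((isOpenEmbedding_kap true).injective h1).symm
  have hd : deriv ψ 0 = 0 := by
    by_contra hne
    apply hc
    have h1 := (li_chart hψ hF2).2 hne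
    rwa [k0] at h1
  have hsmall : ∀ᶠ w in 𝓝 (0 : ℂ), ‖ψ w‖ ≤ 1 / 4 * ‖w‖ := by
    have h1 : HasDerivAt ψ 0 0 := by
      have := hψ.differentiableAt.hasDerivAt
      rwa [hd] at this
    have h2 := h1.isLittleO
    simp only [hψ0, sub_zero, smul_zero] at h2
    exact h2.bound (by norm_num)
  obtain ⟨r, hr, hball⟩ := Metric.eventually_nhds_iff_ball.1 (hF2.and hsmall)
  refine ⟨1 / r + 1, by positivity, fun R hR z hz β hβ => ?_⟩
  have hR1 : 1 / r < R := by linarith
  have hR0 : 0 < R := lt_trans (by positivity) hR1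
  have hR2 : 1 < R := by
    have : 0 < 1 / r := by positivity
    linarith
  -- the coordinate at infinity
  obtain ⟨w, hw, hwz⟩ : ∃ w : ℂ, ‖w‖ < 1 / R ∧ z = kap true w := by
    induction z using OnePoint.rec with
    | infty => exact ⟨0, by rw [norm_zero]; positivity, k0.symm⟩
    | coe u =>
      have hu : R < ‖u‖ := by
        by_contra hcon
        push Not at hcon
        exact hz ⟨u, by rwa [mem_closedBall_zero_iff], rfl⟩
      have hu0 : u ≠ 0 := by
        rintro rfl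
        rw [norm_zero] at hu
        linarith
      refine ⟨u⁻¹, ?_, ?_⟩
      · rw [norm_inv, ← one_div]
        exact one_div_lt_one_div_of_lt hR0 hu
      · rw [kap_true, ← pr_one u⁻¹, sinv_pr (Or.inr one_ne_zero), pr_ne (inv_ne_zero hu0)]
        simp
  have hwr : ‖w‖ < r := by
    refine hw.trans ?_
    rw [div_lt_iff₀ hR0]
    rw [div_lt_iff₀ hr] at hR1
    linarith
  obtain ⟨q1, q2⟩ := hball w (by rwa [mem_ball_zero_iff])
  rw [hwz, q1]
  rintro ⟨v, hv, hv2⟩
  rw [mem_closedBall_zero_iff] at hv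
  by_cases hψw : ψ w = 0
  · rw [hψw, k0, tau_infty] at hv2
    exact OnePoint.coe_ne_infty _ hv2
  · have h1 : kap true (ψ w) = (((ψ w)⁻¹ : ℂ) : Sp) := by
      rw [kap_true, ← pr_one, sinv_pr (Or.inr one_ne_zero), pr_ne hψw, one_div]
    rw [h1, tau_coe] at hv2
    have hv2' : (v : Sp) = (((ψ w)⁻¹ + β : ℂ) : Sp) := hv2
    have h2 : v = (ψ w)⁻¹ + β := OnePoint.coe_injective hv2'
    have h3 : ‖(ψ w)⁻¹‖ ≤ ‖v‖ + ‖β‖ := by
      have : (ψ w)⁻¹ = v - β := by rw [h2]; ring
      rw [this]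
      exact norm_sub_le _ _
    have h4 : 0 < ‖ψ w‖ := norm_pos_iff.2 hψw
    have h5 : 4 * R < ‖(ψ w)⁻¹‖ := by
      rw [norm_inv, ← one_div, lt_div_iff₀ h4]
      rw [lt_div_iff₀ hR0] at hw
      nlinarith
    linarith

theorem case_two {g : Sp → Sp} (hg : Good g) {δ : ℝ} (hδ0 : 0 < δ) (hδ : δ ≤ 1 / 4)
    (hall : ∀ x, Reach g δ x = univ) :
    ∃ n₀ : ℕ, ∀ n ≥ n₀, ∃ l : List Mx, l.length = n ∧ adk δ l ∧ Sys.HypT (evk g l) := by
  classical
  obtain ⟨c, hc⟩ := hg.ex
  obtain ⟨N₀, hN₀⟩ := loops hδ0 hδ hall c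
  set N : ℕ := N₀ + 1 with hN
  have hloop : ∀ s : Fin N, ∃ l : List Mx, l.length = N + s ∧ adk δ l ∧ evk g l c = c :=
    fun s => hN₀ (N + s) (by omega)
  choose l hl1 hl2 hl3 using hloop
  obtain ⟨H, hH0, hH1, hH2, hH3⟩ := exists_conj c
  have hHc : H.symm ∞ = c := by rw [← hH0, H.symm_apply_apply]
  let F : Fin N → Sp → Sp := fun s x => H (evk g (l s) (H.symm x))
  have hFhol : ∀ s, HolMap (F s) := fun s => hH1.comp ((evk_hol hg.hol hδ (hl2 s)).comp hH2)
  have hF0 : ∀ s, F s ∞ = ∞ := by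
    intro s
    show H (evk g (l s) (H.symm ∞)) = ∞
    rw [hHc, hl3, hH0]
  have hFc : ∀ s, ¬ LI (F s) ∞ := by
    rintro s ⟨U, hU, hUi⟩
    obtain ⟨M, l', hl'⟩ : ∃ M l', l s = M :: l' := by
      cases h : l s with
      | nil =>
        have := hl1 s
        rw [h] at this
        simp at this
        omega
      | cons M l' => exact ⟨M, l', rfl⟩
    have h1 : ¬ LI (evk g (l s)) c := by
      rw [hl']
      exact not_li_evk hc
    apply h1
    refine ⟨H ⁻¹' U, ?_, ?_⟩
    · apply H.continuous.continuousAt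
      rw [hH0]
      exact hU
    · intro x hx y hy hxy
      apply H.injective
      apply hUi hx hy
      show H (evk g (l s) (H.symm (H x))) = H (evk g (l s) (H.symm (H y)))
      rw [H.symm_apply_apply, H.symm_apply_apply, hxy]
  have : Nonempty (Fin N) := ⟨⟨0, by omega⟩⟩
  have hsup := fun s => super (hFhol s) (hF0 s) (hFc s)
  choose R₀ hR₀ hR₀2 using hsup
  obtain ⟨s₁, hs₁⟩ := Finite.exists_max R₀
  set R : ℝ := R₀ s₁ with hR
  have hRpos : 0 < R := hR₀ s₁
  -- the kicks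
  have hkick : ∀ s : Fin N, ∃ η : ℝ, 0 < η ∧ ∀ β : ℂ, ‖β‖ < η → ∃ l' : List Mx,
      l'.length = N + s ∧ adk δ l' ∧ ∀ x, H (evk g l' x) = tau β (H (evk g (l s) x)) := by
    intro s
    have hne : l s ≠ [] := by
      intro h
      have := hl1 s
      rw [h] at this
      simp at this
      omega
    obtain ⟨l₀, M, hl₀⟩ : ∃ l₀ M, l s = l₀ ++ [M] := ⟨(l s).dropLast, (l s).getLast hne,
      (List.dropLast_append_getLast hne).symm⟩
    have hM : M.near δ := hl2 s M (by rw [hl₀]; simp)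
    obtain ⟨r, hr, hmul⟩ := near_mul hM
    obtain ⟨η, hη, hE⟩ := hH3 r hr
    refine ⟨η, hη, fun β hβ => ?_⟩
    obtain ⟨E, hE1, hE2⟩ := hE β hβ
    refine ⟨l₀ ++ [E.mul M], ?_, ?_, fun x => ?_⟩
    · have := hl1 s
      rw [hl₀] at this
      simpa using this
    · intro K hK
      rcases List.mem_append.1 hK with h | h
      · exact hl2 s K (by rw [hl₀]; exact List.mem_append_left _ h)
      · rw [List.mem_singleton] at h
        rw [h]
        exact hmul E hE1
    · rw [hl₀, evk_append, evk_append]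
      show H ((E.mul M).act (g (evk g l₀ x))) = tau β (H (M.act (g (evk g l₀ x))))
      rw [Mx.act_mul _ (hM.det_ne hδ), ← hE2, H.apply_symm_apply]
  choose ηs hηs hk using hkick
  obtain ⟨s₂, hs₂⟩ := Finite.exists_min ηs
  set η : ℝ := min (ηs s₂) 1 with hη
  have hη0 : 0 < η := lt_min (hηs s₂) one_pos
  have hcrit := fun s => evk_crit hg hδ (hl2 s)
  choose C hC using hcrit
  have hcomp : IsCompact ((fun u : ℂ => (u : Sp)) '' closedBall 0 R) :=
    (isCompact_closedBall (0 : ℂ) R).image OnePoint.continuous_coe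
  let S : Sys (Fin N) :=
    { F := F
      ell := fun s => N + s
      C := Finset.univ.biUnion fun s => (C s).image H
      D := ((fun u : ℂ => (u : Sp)) '' closedBall 0 R)ᶜ
      η := η
      n₁ := N
      hol := hFhol
      ell1 := fun s => by omega
      inj := by
        intro s z hz
        have h1 : H.symm z ∉ C s := by
          intro h
          apply hz
          rw [Finset.mem_biUnion]
          refine ⟨s, Finset.mem_univ _, ?_⟩
          rw [← H.apply_symm_apply z]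
          exact Finset.mem_image_of_mem _ h
        obtain ⟨U, hU, hUi⟩ := hC s _ h1
        refine ⟨H.symm ⁻¹' U, H.symm.continuous.continuousAt hU, fun a ha b hb hab => ?_⟩
        exact H.symm.injective (hUi ha hb (H.injective hab))
      Dopen := hcomp.isClosed.isOpen_compl
      Dinf := by
        rintro ⟨u, -, hu⟩
        exact OnePoint.coe_ne_infty _ hu
      Dcomp := by
        rw [compl_compl]
        refine ⟨((0 : ℂ) : Sp), mem_interior.2 ⟨(fun u : ℂ => (u : Sp)) '' ball 0 R, ?_, ?_, ?_⟩⟩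
        · exact image_mono ball_subset_closedBall
        · exact OnePoint.isOpenEmbedding_coe.isOpenMap _ isOpen_ball
        · exact ⟨0, mem_ball_self hRpos, rfl⟩
      η0 := hη0
      DD := fun s z β hz hβ => hR₀2 s R (hs₁ s) z hz β (hβ.trans_le (min_le_right _ _))
      lens := by
        intro n hn
        have hN0 : 0 < N := by omega
        refine ⟨List.replicate (n / N - 1) ⟨0, hN0⟩ ++ [⟨n % N, Nat.mod_lt _ hN0⟩], ?_⟩
        have h1 : 1 ≤ n / N := (Nat.one_le_div_iff hN0).2 hn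
        have h2 : n = N * (n / N) + n % N := (Nat.div_add_mod n N).symm
        simp only [List.map_append, List.map_replicate, List.map_cons, List.map_nil,
          List.sum_append, List.sum_replicate, List.sum_cons, List.sum_nil, add_zero, smul_eq_mul]
        obtain ⟨q, hq⟩ : ∃ q, n / N = q + 1 := ⟨n / N - 1, by omega⟩
        rw [hq] at h2 ⊢
        rw [Nat.add_sub_cancel]
        conv_rhs => rw [h2]
        ring }
  apply bridge S H
  intro s β hβ
  obtain ⟨l', a1, a2, a3⟩ := hk s β (hβ.trans_le ((min_le_left _ _).trans (hs₂ s)))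
  refine ⟨l', a1, a2, fun x => ?_⟩
  rw [a3]
  show tau β (H (evk g (l s) x)) = tau β (H (evk g (l s) (H.symm (H x))))
  rw [H.symm_apply_apply]

/-- Small changes of the factors of `g^n`, all `n` large, give hyperbolic compositions. -/
theorem good_main {g : Sp → Sp} (hg : Good g) {δ : ℝ} (hδ0 : 0 < δ) (hδ : δ ≤ 1 / 4) :
    ∃ n₀ : ℕ, ∀ n ≥ n₀, ∃ l : List Mx, l.length = n ∧ adk δ l ∧ Sys.HypT (evk g l) := by
  by_cases h : ∃ x, Reach g δ x ≠ univ
  · obtain ⟨x, hx⟩ := h
    exact case_one hg hδ0 hδ hx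
  · push Not at h
    exact case_two hg hδ0 hδ h

end Pool.Agent.Y334.RM
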