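import Mathlib
import Pool.Agent.Y334.RM.Two

/-! Rational maps: coefficients. -/

set_option autoImplicit false

open Set Filter Topology Metric Polynomial
open scoped OnePoint
open Pool.Agent.Helper114.Herman

namespace Pool.Agent.Y334.RM

/-- the rational map of a coprime pair -/
noncomputable def ratMap (P Q : ℂ[X]) (x : Sp) : Sp :=
  match x with
  | none => pr (P.coeff (max P.natDegree Q.natDegree)) (Q.coeff (max P.natDegree Q.natDegree))
  | some z => pr (P.eval z) (Q.eval z)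

theorem isRat_ratMap {P Q : ℂ[X]} (hc : IsCoprime P Q) (hd : 0 < max P.natDegree Q.natDegree) :
    IsRat (ratMap P Q) P Q := by
  set d := max P.natDegree Q.natDegree with hdd
  have hQ : Q ≠ 0 := by
    rintro rfl
    have h1 : IsUnit P := isCoprime_zero_right.1 hc
    have h2 := natDegree_eq_zero_of_isUnit h1
    rw [h2] at hdd
    simp at hdd
    omega
  have h0 : ∀ z : ℂ, ratMap P Q (z : Sp) = pr (P.eval z) (Q.eval z) := fun z => rfl
  have h1 : ∀ w : ℂ, ratMap P Q (kap true w) = pr (hom P d 1 w) (hom Q d 1 w) := by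
    intro w
    by_cases hw : w = 0
    · subst hw
      have h2 : kap true 0 = ∞ := by
        rw [kap_true, ← pr_one, sinv_pr (Or.inr one_ne_zero), pr_zero]
      rw [h2, hom_zero, hom_zero, one_pow, mul_one, mul_one]
      rfl
    · have h2 : kap true w = ((w⁻¹ : ℂ) : Sp) := by
        rw [kap_true, ← pr_one, sinv_pr (Or.inr one_ne_zero), pr_ne hw, one_div]
      rw [h2, h0, hom_ne (le_max_left _ _) hw, hom_ne (le_max_right _ _) hw, one_div,
        pr_smul (pow_ne_zero _ hw)]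
  refine ⟨?_, hc, hQ, fun z hz => by rw [h0, pr_ne hz]⟩
  rw [continuous_iff_continuousAt]
  intro x
  obtain ⟨b, z, rfl⟩ := exists_kap x
  rw [ContinuousAt, nhds_kap, tendsto_map'_iff]
  show ContinuousAt (fun z => ratMap P Q (kap b z)) z
  cases b with
  | false =>
    have h2 : (fun z => ratMap P Q (kap false z)) = fun z => pr (P.eval z) (Q.eval z) := by
      funext z
      rw [kap_false, h0]
    rw [h2]
    have h3 : P.eval z ≠ 0 ∨ Q.eval z ≠ 0 := by
      have h4 := hom_not_both hc hdd (u := z) (v := 1) (Or.inr one_ne_zero) hd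
      rw [hom_ne (le_max_left _ _) one_ne_zero, hom_ne (le_max_right _ _) one_ne_zero] at h4
      simpa using h4
    exact ContinuousAt.comp (g := fun p : ℂ × ℂ => pr p.1 p.2)
      (f := fun z : ℂ => (P.eval z, Q.eval z)) (x := z) (continuousAt_pr h3)
      (P.continuous.continuousAt.prodMk Q.continuous.continuousAt)
  | true =>
    have h2 : (fun z => ratMap P Q (kap true z)) = fun w => pr (hom P d 1 w) (hom Q d 1 w) := by
      funext w
      rw [h1]
    rw [h2]
    have h3 := hom_not_both hc hdd (u := 1) (v := z) (Or.inl one_ne_zero) hd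
    exact ContinuousAt.comp (g := fun p : ℂ × ℂ => pr p.1 p.2)
      (f := fun w : ℂ => (hom P d 1 w, hom Q d 1 w)) (x := z) (continuousAt_pr h3)
      (((continuous_hom P d).comp (continuous_const.prodMk continuous_id)).continuousAt.prodMk
        ((continuous_hom Q d).comp (continuous_const.prodMk continuous_id)).continuousAt)

/-- numerator of `M ∘ (P / Q)` -/
noncomputable def Mx.nu (M : Mx) (P Q : ℂ[X]) : ℂ[X] := C M.a * P + C M.b * Q

/-- denominator of `M ∘ (P / Q)` -/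
noncomputable def Mx.de (M : Mx) (P Q : ℂ[X]) : ℂ[X] := C M.c * P + C M.e * Q

theorem act_coprime {M : Mx} (hM : M.det ≠ 0) {P Q : ℂ[X]} (hc : IsCoprime P Q) :
    IsCoprime (M.nu P Q) (M.de P Q) := by
  obtain ⟨u, v, huv⟩ := hc
  refine ⟨C (M.det⁻¹) * (C M.e * u - C M.c * v), C (M.det⁻¹) * (C M.a * v - C M.b * u), ?_⟩
  have h1 : C (M.det⁻¹) * (C M.a * C M.e - C M.b * C M.c) = 1 := by
    rw [← C_mul, ← C_mul, ← C_sub, ← C_mul]
    have : M.det⁻¹ * (M.a * M.e - M.b * M.c) = 1 := inv_mul_cancel₀ hM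
    rw [this, C_1]
  simp only [Mx.nu, Mx.de]
  calc _ = C (M.det⁻¹) * (C M.a * C M.e - C M.b * C M.c) * (u * P + v * Q) := by ring
    _ = 1 := by rw [h1, huv, one_mul]

theorem act_degree {M : Mx} (hM : M.det ≠ 0) {P Q : ℂ[X]} (hd : 0 < max P.natDegree Q.natDegree) :
    max (M.nu P Q).natDegree (M.de P Q).natDegree = max P.natDegree Q.natDegree := by
  set d := max P.natDegree Q.natDegree with hdd
  have hP : P.natDegree ≤ d := le_max_left _ _
  have hQ : Q.natDegree ≤ d := le_max_right _ _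
  apply le_antisymm
  · apply max_le
    · exact (natDegree_add_le _ _).trans (max_le ((natDegree_C_mul_le _ _).trans hP)
        ((natDegree_C_mul_le _ _).trans hQ))
    · exact (natDegree_add_le _ _).trans (max_le ((natDegree_C_mul_le _ _).trans hP)
        ((natDegree_C_mul_le _ _).trans hQ))
  · have h1 : P.coeff d ≠ 0 ∨ Q.coeff d ≠ 0 := by
      rcases le_total P.natDegree Q.natDegree with h | h
      · right
        have h2 : d = Q.natDegree := max_eq_right h
        rw [h2]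
        intro h3
        have h4 : Q = 0 := leadingCoeff_eq_zero.1 h3
        rw [h4] at h2
        simp at h2
        omega
      · left
        have h2 : d = P.natDegree := max_eq_left h
        rw [h2]
        intro h3
        have h4 : P = 0 := leadingCoeff_eq_zero.1 h3
        rw [h4] at h2
        simp at h2
        omega
    rcases Mx.vec_ne hM h1 with h | h
    · refine le_max_of_le_left (le_natDegree_of_ne_zero ?_)
      simpa [Mx.nu] using h
    · refine le_max_of_le_right (le_natDegree_of_ne_zero ?_)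
      simpa [Mx.de] using h

theorem act_isRat {M : Mx} (hM : M.det ≠ 0) {f : Sp → Sp} {P Q : ℂ[X]} (hf : IsRat f P Q)
    (hd : 0 < max P.natDegree Q.natDegree) :
    IsRat (fun x => M.act (f x)) (M.nu P Q) (M.de P Q) := by
  have hc := act_coprime hM hf.cop
  have hdeg := act_degree hM hd
  refine ⟨(Mx.hol hM).continuous.comp hf.cont, hc, ?_, fun z hz => ?_⟩
  · intro h0
    rw [h0] at hc hdeg
    have h1 : IsUnit (M.nu P Q) := isCoprime_zero_right.1 hc
    have h2 := natDegree_eq_zero_of_isUnit h1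
    rw [h2] at hdeg
    simp at hdeg
    omega
  · obtain ⟨h1, h2⟩ := rat_coe hf hd z
    show M.act (f (z : Sp)) = _
    rw [h1, Mx.act_pr _ h2]
    have h3 : M.c * P.eval z + M.e * Q.eval z ≠ 0 := by simpa [Mx.de] using hz
    rw [pr_ne h3]
    simp [Mx.nu, Mx.de]

/-- the maps applied one after the other -/
def comp (g : ℕ → Sp → Sp) : ℕ → Sp → Sp
  | 0, x => x
  | i + 1, x => g i (comp g i x)

theorem comp_evk (g : Sp → Sp) (l : List Mx) (n : ℕ) (hn : n ≤ l.length) (x : Sp) :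
    comp (fun i x => (l.getD i Mx.one).act (g x)) n x = evk g (l.take n) x := by
  induction n with
  | zero => rfl
  | succ n ih =>
    have h1 : l.take (n + 1) = l.take n ++ [l[n]] := (List.take_concat_get' l n (by omega)).symm
    rw [h1, evk_append, ← ih (by omega)]
    show (l.getD n Mx.one).act (g _) = (l[n]).act (g _)
    rw [List.getD_eq_getElem l Mx.one (by omega)]

theorem coeff_bound (P Q : ℂ[X]) : ∃ K : ℝ, 0 ≤ K ∧ ∀ k, ‖P.coeff k‖ ≤ K ∧ ‖Q.coeff k‖ ≤ K := by
  refine ⟨∑ k ∈ Finset.range (max P.natDegree Q.natDegree + 1), (‖P.coeff k‖ + ‖Q.coeff k‖),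
    Finset.sum_nonneg fun k _ => by positivity, fun k => ?_⟩
  by_cases hk : k ≤ max P.natDegree Q.natDegree
  · have h1 := Finset.single_le_sum (f := fun k => ‖P.coeff k‖ + ‖Q.coeff k‖)
      (fun i _ => by positivity) (Finset.mem_range.2 (Nat.lt_succ_of_le hk))
    have h2 := norm_nonneg (P.coeff k)
    have h3 := norm_nonneg (Q.coeff k)
    constructor <;> linarith
  · push Not at hk
    rw [coeff_eq_zero_of_natDegree_lt ((le_max_left _ _).trans_lt hk),
      coeff_eq_zero_of_natDegree_lt ((le_max_right _ _).trans_lt hk), norm_zero]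
    have := Finset.sum_nonneg (s := Finset.range (max P.natDegree Q.natDegree + 1))
      (f := fun k => ‖P.coeff k‖ + ‖Q.coeff k‖) (fun i _ => by positivity)
    exact ⟨this, this⟩

/-- the perturbed coefficients are close -/
theorem act_close {M : Mx} {δ K : ℝ} (hM : M.near δ) {P Q : ℂ[X]}
    (hK : ∀ k, ‖P.coeff k‖ ≤ K ∧ ‖Q.coeff k‖ ≤ K) (k : ℕ) :
    ‖(M.nu P Q).coeff k - P.coeff k‖ ≤ 2 * K * δ ∧ ‖(M.de P Q).coeff k - Q.coeff k‖ ≤ 2 * K * δ := by
  obtain ⟨h1, h2, h3, h4⟩ := hM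
  obtain ⟨hp, hq⟩ := hK k
  have hδ : 0 ≤ δ := (norm_nonneg _).trans h2.le
  have key : ∀ x y u v : ℂ, ‖x‖ < δ → ‖y‖ < δ → ‖u‖ ≤ K → ‖v‖ ≤ K →
      ‖x * u + y * v‖ ≤ 2 * K * δ := by
    intro x y u v hx hy hu hv
    calc ‖x * u + y * v‖ ≤ ‖x * u‖ + ‖y * v‖ := norm_add_le _ _
      _ = ‖x‖ * ‖u‖ + ‖y‖ * ‖v‖ := by rw [norm_mul, norm_mul]
      _ ≤ δ * K + δ * K := by gcongr
      _ = 2 * K * δ := by ring
  constructor
  · have e1 : (M.nu P Q).coeff k - P.coeff k = (M.a - 1) * P.coeff k + M.b * Q.coeff k := by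
      simp [Mx.nu]; ring
    rw [e1]
    exact key _ _ _ _ h1 h2 hp hq
  · have e1 : (M.de P Q).coeff k - Q.coeff k = M.c * P.coeff k + (M.e - 1) * Q.coeff k := by
      simp [Mx.de]; ring
    rw [e1]
    exact key _ _ _ _ h3 h4 hp hq

/-- The statement for one map. -/
theorem one_map {P Q : ℂ[X]} {f : Sp → Sp} (hf : IsRat f P Q)
    (hd : 2 ≤ max P.natDegree Q.natDegree) {δ : ℝ} (hδ0 : 0 < δ) (hδ : δ ≤ 1 / 4) :
    ∃ n₀ : ℕ, ∀ n ≥ n₀, ∃ M : ℕ → Mx, (∀ i, (M i).near δ) ∧
      Sys.HypT (comp (fun i x => (M i).act (f x)) n) := by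
  obtain ⟨n₀, h⟩ := good_main (good_rat hf hd) hδ0 hδ
  refine ⟨n₀, fun n hn => ?_⟩
  obtain ⟨l, hl, hl2, hl3⟩ := h n hn
  refine ⟨fun i => l.getD i Mx.one, fun i => ?_, ?_⟩
  · by_cases hi : i < l.length
    · show (l.getD i Mx.one).near δ
      rw [List.getD_eq_getElem l Mx.one hi]
      exact hl2 _ (List.getElem_mem hi)
    · show (l.getD i Mx.one).near δ
      rw [List.getD_eq_default l Mx.one (by omega)]
      exact Mx.near_one hδ0
  · have h1 : comp (fun i x => (l.getD i Mx.one).act (f x)) n = evk f l := by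
      funext x
      rw [comp_evk f l n (by omega), ← hl, List.take_length]
    rw [h1]
    exact hl3

/-- The uniform statement. -/
theorem uniform {d : ℕ} (hd : 2 ≤ d) {ε : ℝ} (hε : 0 < ε) (A : ℝ) :
    ∃ n₀ : ℕ, ∀ n ≥ n₀, ∀ P Q : ℂ[X], IsCoprime P Q → max P.natDegree Q.natDegree = d →
      (∀ k, ‖P.coeff k‖ ≤ A ∧ ‖Q.coeff k‖ ≤ A) →
      ∃ (P' Q' : ℕ → ℂ[X]) (g : ℕ → Sp → Sp),
        (∀ i, IsRat (g i) (P' i) (Q' i) ∧ max (P' i).natDegree (Q' i).natDegree = d ∧
          ∀ k, ‖(P' i).coeff k - P.coeff k‖ < ε ∧ ‖(Q' i).coeff k - Q.coeff k‖ < ε) ∧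
        Sys.HypT (comp g n) := by
  classical
  -- coefficient vectors
  let V := (Fin (d + 1) → ℂ) × (Fin (d + 1) → ℂ)
  let vec : ℂ[X] × ℂ[X] → V := fun p => (fun i => p.1.coeff i, fun i => p.2.coeff i)
  let X₀ : Set (ℂ[X] × ℂ[X]) := {p | IsCoprime p.1 p.2 ∧ max p.1.natDegree p.2.natDegree = d ∧
    ∀ k, ‖p.1.coeff k‖ ≤ A ∧ ‖p.2.coeff k‖ ≤ A}
  have htb : TotallyBounded (vec '' X₀) := by
    apply (isCompact_closedBall (0 : V) (max A 0)).totallyBounded.subset
    rintro _ ⟨p, ⟨-, -, hp⟩, rfl⟩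
    rw [mem_closedBall_zero_iff, Prod.norm_def]
    apply max_le
    · rw [pi_norm_le_iff_of_nonneg (le_max_right _ _)]
      exact fun i => (hp i).1.trans (le_max_left _ _)
    · rw [pi_norm_le_iff_of_nonneg (le_max_right _ _)]
      exact fun i => (hp i).2.trans (le_max_left _ _)
  obtain ⟨t, ht, htf, hcov⟩ := htb.exists_subset (Metric.dist_mem_uniformity (half_pos hε))
  have hloc : ∀ y ∈ t, ∃ n₀ : ℕ, ∀ n ≥ n₀, ∃ (P' Q' : ℕ → ℂ[X]) (g : ℕ → Sp → Sp),
      (∀ i, IsRat (g i) (P' i) (Q' i) ∧ max (P' i).natDegree (Q' i).natDegree = d ∧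
        dist (vec (P' i, Q' i)) y < ε / 2) ∧ Sys.HypT (comp g n) := by
    intro y hy
    obtain ⟨p, ⟨hc, hdeg, -⟩, rfl⟩ := ht hy
    have hd0 : 0 < max p.1.natDegree p.2.natDegree := by omega
    have hf := isRat_ratMap hc hd0
    obtain ⟨K, hK0, hK⟩ := coeff_bound p.1 p.2
    set δ : ℝ := min (1 / 4) (ε / 2 / (2 * K + 1)) / 2 with hδ
    have hδ0 : 0 < δ := by rw [hδ]; positivity
    have hδ1 : δ ≤ 1 / 4 := by
      have : min (1 / 4) (ε / 2 / (2 * K + 1)) ≤ 1 / 4 := min_le_left _ _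
      have h2 : 0 < min (1 / 4) (ε / 2 / (2 * K + 1)) := by positivity
      rw [hδ]; linarith
    have hδ2 : 2 * K * δ < ε / 2 := by
      have h1 : δ < ε / 2 / (2 * K + 1) := by
        have : min (1 / 4) (ε / 2 / (2 * K + 1)) ≤ ε / 2 / (2 * K + 1) := min_le_right _ _
        have h2 : 0 < min (1 / 4) (ε / 2 / (2 * K + 1)) := by positivity
        rw [hδ]; linarith
      rw [lt_div_iff₀ (by positivity)] at h1
      nlinarith
    obtain ⟨n₀, h⟩ := one_map hf (by omega) hδ0 hδ1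
    refine ⟨n₀, fun n hn => ?_⟩
    obtain ⟨M, hM, hH⟩ := h n hn
    refine ⟨fun i => (M i).nu p.1 p.2, fun i => (M i).de p.1 p.2, _, fun i => ⟨?_, ?_, ?_⟩, hH⟩
    · exact act_isRat ((hM i).det_ne hδ1) hf hd0
    · rw [act_degree ((hM i).det_ne hδ1) hd0, hdeg]
    · have h1 := fun k => act_close (hM i) hK k
      rw [Prod.dist_eq]
      apply max_lt
      · rw [dist_pi_lt_iff (by positivity)]
        intro k
        rw [dist_eq_norm]
        exact (h1 k).1.trans_lt hδ2
      · rw [dist_pi_lt_iff (by positivity)]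
        intro k
        rw [dist_eq_norm]
        exact (h1 k).2.trans_lt hδ2
  choose! N hN using hloc
  refine ⟨htf.toFinset.sup N, fun n hn P Q hc hdeg hA => ?_⟩
  have h1 : vec (P, Q) ∈ vec '' X₀ := mem_image_of_mem _ ⟨hc, hdeg, hA⟩
  obtain ⟨y, hy, hPy⟩ := mem_iUnion₂.1 (hcov h1)
  have hPy' : dist (vec (P, Q)) y < ε / 2 := hPy
  obtain ⟨P', Q', g, hg, hH⟩ := hN y hy n ((Finset.le_sup (htf.mem_toFinset.2 hy)).trans hn)
  refine ⟨P', Q', g, fun i => ⟨(hg i).1, (hg i).2.1, fun k => ?_⟩, hH⟩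
  have h2 : dist (vec (P' i, Q' i)) (vec (P, Q)) < ε := by
    have h3 := dist_triangle_right (vec (P' i, Q' i)) (vec (P, Q)) y
    linarith [(hg i).2.2]
  by_cases hk : k < d + 1
  · rw [Prod.dist_eq] at h2
    have h3 := (le_max_left _ _).trans_lt h2
    have h4 := (le_max_right _ _).trans_lt h2
    have h5 := (dist_le_pi_dist (vec (P' i, Q' i)).1 (vec (P, Q)).1 ⟨k, hk⟩).trans_lt h3
    have h6 := (dist_le_pi_dist (vec (P' i, Q' i)).2 (vec (P, Q)).2 ⟨k, hk⟩).trans_lt h4
    rw [dist_eq_norm] at h5 h6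
    exact ⟨h5, h6⟩
  · have z1 : ∀ R : ℂ[X], R.natDegree ≤ d → R.coeff k = 0 := fun R hR =>
      coeff_eq_zero_of_natDegree_lt (by omega)
    have e1 := (hg i).2.1
    rw [z1 P (hdeg ▸ le_max_left _ _), z1 Q (hdeg ▸ le_max_right _ _),
      z1 (P' i) (e1 ▸ le_max_left _ _), z1 (Q' i) (e1 ▸ le_max_right _ _), sub_zero, norm_zero]
    exact ⟨hε, hε⟩

end Pool.Agent.Y334.RM
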